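import Pool.Agent.H64.SD.Stm

/-!
# Task SD1 of project SD: linear equations in residues and the additive energy
-/

set_option autoImplicit false

namespace Pool.Agent.H64.SD

namespace SD1

open Finset
open scoped BigOperators ComplexConjugate

theorem map_sum' {A : Type} [AddCommMonoid A] {ι : Type} (ψ : AddChar A ℂ) (s : Finset ι)
    (f : ι → A) : ψ (∑ i ∈ s, f i) = ∏ i ∈ s, ψ (f i) := by
  classical
  induction s using Finset.induction_on with
  | empty => simp
  | insert a s ha ih => rw [Finset.sum_insert ha, Finset.prod_insert ha, AddChar.map_add_eq_mul, ih]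

variable {N : ℕ} [Fact N.Prime]

/-- The standard additive character. -/
noncomputable def e (N : ℕ) [NeZero N] : AddChar (ZMod N) ℂ := ZMod.stdAddChar

/-- The Fourier transform of the set `B`. -/
noncomputable def F (B : Finset (ZMod N)) (ξ : ZMod N) : ℂ := ∑ b ∈ B, e N (b * ξ)

theorem orth (t : ZMod N) : ∑ ξ : ZMod N, e N (ξ * t) = if t = 0 then (N : ℂ) else 0 := by
  classical
  have h := AddChar.sum_mulShift (R := ZMod N) (R' := ℂ) (ψ := e N) t
    (ZMod.isPrimitive_stdAddChar N)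
  rw [h]
  simp [ZMod.card]

theorem prodF {ι : Type} [Fintype ι] [DecidableEq ι] (B : Finset (ZMod N)) (d : ι → ZMod N) :
    ∏ i, F B (d i) = ∑ x ∈ Fintype.piFinset (fun _ : ι => B), e N (∑ i, x i * d i) := by
  unfold F
  rw [Finset.prod_univ_sum]
  refine Finset.sum_congr rfl fun x _ => ?_
  rw [map_sum']

theorem count_eq {ι : Type} [Fintype ι] [DecidableEq ι] (B : Finset (ZMod N)) (c : ι → ZMod N)
    (h : ZMod N) :
    ∑ ξ : ZMod N, e N (-(h * ξ)) * ∏ i, F B (c i * ξ) =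
      (N : ℂ) * (((Fintype.piFinset fun _ : ι => B).filter fun x => ∑ i, c i * x i = h).card : ℂ) := by
  have h1 : ∀ ξ : ZMod N, e N (-(h * ξ)) * ∏ i, F B (c i * ξ) =
      ∑ x ∈ Fintype.piFinset (fun _ : ι => B), e N (ξ * (∑ i, c i * x i - h)) := by
    intro ξ
    rw [prodF, Finset.mul_sum]
    refine Finset.sum_congr rfl fun x _ => ?_
    rw [← AddChar.map_add_eq_mul]
    congr 1
    rw [mul_sub, Finset.mul_sum]
    have : ∑ i, x i * (c i * ξ) = ∑ i, ξ * (c i * x i) :=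
      Finset.sum_congr rfl fun i _ => by ring
    rw [this]
    ring
  simp_rw [h1]
  rw [Finset.sum_comm]
  simp_rw [orth]
  rw [← Finset.sum_filter]
  have h2 : ((Fintype.piFinset fun _ : ι => B).filter fun x => ∑ i, c i * x i - h = 0) =
      ((Fintype.piFinset fun _ : ι => B).filter fun x => ∑ i, c i * x i = h) := by
    ext x
    simp only [Finset.mem_filter, sub_eq_zero]
  rw [h2, Finset.sum_const, nsmul_eq_mul]
  ring

theorem norm_e (x : ZMod N) : ‖e N x‖ = 1 := AddChar.norm_apply _ _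

theorem conj_F_pow (B : Finset (ZMod N)) (j : ℕ) (ξ : ZMod N) :
    F B ξ ^ j = ∑ x ∈ Fintype.piFinset (fun _ : Fin j => B), e N (∑ i, x i * ξ) := by
  have := prodF (ι := Fin j) B (fun _ => ξ)
  simpa using this

theorem norm_F_pow (B : Finset (ZMod N)) (j : ℕ) (ξ : ZMod N) :
    ((‖F B ξ‖ ^ (2 * j) : ℝ) : ℂ) =
      ∑ p ∈ (Fintype.piFinset fun _ : Fin j => B) ×ˢ (Fintype.piFinset fun _ : Fin j => B),
        e N (ξ * (∑ i, p.1 i - ∑ i, p.2 i)) := by
  have h1 : ((‖F B ξ‖ ^ (2 * j) : ℝ) : ℂ) = F B ξ ^ j * conj (F B ξ ^ j) := by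
    rw [map_pow, ← mul_pow, Complex.mul_conj, Complex.normSq_eq_norm_sq, pow_mul]
    push_cast
    rfl
  rw [h1, conj_F_pow, map_sum, Finset.sum_mul_sum, Finset.sum_product]
  refine Finset.sum_congr rfl fun x _ => Finset.sum_congr rfl fun y _ => ?_
  rw [← AddChar.map_neg_eq_conj, ← AddChar.map_add_eq_mul]
  congr 1
  rw [← Finset.sum_mul, ← Finset.sum_mul]
  ring

theorem energy_eq (B : Finset (ZMod N)) (j : ℕ) :
    ∑ ξ : ZMod N, ‖F B ξ‖ ^ (2 * j) = (N : ℝ) * (EA j B : ℝ) := by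
  have h : ((∑ ξ : ZMod N, ‖F B ξ‖ ^ (2 * j) : ℝ) : ℂ) = (((N : ℝ) * (EA j B : ℝ) : ℝ) : ℂ) := by
    rw [Complex.ofReal_sum]
    simp_rw [norm_F_pow]
    rw [Finset.sum_comm]
    simp_rw [orth]
    rw [← Finset.sum_filter, Finset.sum_const, nsmul_eq_mul]
    have h2 : (((Fintype.piFinset fun _ : Fin j => B) ×ˢ
        (Fintype.piFinset fun _ : Fin j => B)).filter
          fun p => ∑ i, p.1 i - ∑ i, p.2 i = 0).card = EA j B := by
      unfold EA
      congr 1
      ext p
      simp only [Finset.mem_filter, sub_eq_zero]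
    rw [h2]
    push_cast
    ring
  exact_mod_cast h

theorem amgm {n : ℕ} (hn : 0 < n) (a : Fin n → ℝ) (ha : ∀ i, 0 ≤ a i) :
    ∏ i, a i ≤ ∑ i, (1 / (n : ℝ)) * a i ^ n := by
  have hn' : (0 : ℝ) < n := by exact_mod_cast hn
  have h := Real.geom_mean_le_arith_mean_weighted (s := (Finset.univ : Finset (Fin n)))
    (fun _ => 1 / (n : ℝ)) (fun i => a i ^ n) (fun _ _ => by positivity)
    (by simp; field_simp) (fun i _ => pow_nonneg (ha i) n)
  refine le_trans (le_of_eq ?_) h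
  refine Finset.prod_congr rfl fun i _ => ?_
  rw [one_div, Real.pow_rpow_inv_natCast (ha i) hn.ne']

theorem main (j : ℕ) (hj : 0 < j) (B : Finset (ZMod N)) (c : Fin (2 * j) → ZMod N) (h : ZMod N)
    (hc : ∀ i, c i ≠ 0) :
    ((Fintype.piFinset fun _ : Fin (2 * j) => B).filter fun x => ∑ i, c i * x i = h).card ≤
      EA j B := by
  have hN : (0 : ℝ) < N := by exact_mod_cast (Fact.out : N.Prime).pos
  have h1 := count_eq B c h
  have h2 : (N : ℝ) * (((Fintype.piFinset fun _ : Fin (2 * j) => B).filter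
      fun x => ∑ i, c i * x i = h).card : ℝ) ≤ (N : ℝ) * (EA j B : ℝ) := by
    have h3 : (N : ℝ) * (((Fintype.piFinset fun _ : Fin (2 * j) => B).filter
        fun x => ∑ i, c i * x i = h).card : ℝ) =
        ‖∑ ξ : ZMod N, e N (-(h * ξ)) * ∏ i, F B (c i * ξ)‖ := by
      rw [h1, norm_mul, Complex.norm_natCast, Complex.norm_natCast]
    rw [h3]
    have hn : 0 < 2 * j := by omega
    calc ‖∑ ξ : ZMod N, e N (-(h * ξ)) * ∏ i, F B (c i * ξ)‖
        ≤ ∑ ξ : ZMod N, ‖e N (-(h * ξ)) * ∏ i, F B (c i * ξ)‖ := norm_sum_le _ _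
      _ = ∑ ξ : ZMod N, ∏ i, ‖F B (c i * ξ)‖ := by
          refine Finset.sum_congr rfl fun ξ _ => ?_
          rw [norm_mul, norm_e, one_mul, norm_prod]
      _ ≤ ∑ ξ : ZMod N, ∑ i : Fin (2 * j), (1 / ((2 * j : ℕ) : ℝ)) * ‖F B (c i * ξ)‖ ^ (2 * j) :=
          Finset.sum_le_sum fun ξ _ => amgm hn _ fun i => norm_nonneg _
      _ = ∑ i : Fin (2 * j), (1 / ((2 * j : ℕ) : ℝ)) * ∑ ξ : ZMod N, ‖F B ξ‖ ^ (2 * j) := by
          rw [Finset.sum_comm]
          refine Finset.sum_congr rfl fun i _ => ?_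
          rw [← Finset.mul_sum]
          congr 1
          exact Fintype.sum_equiv (Equiv.mulLeft₀ (c i) (hc i)) _ _ fun ξ => rfl
      _ = ∑ ξ : ZMod N, ‖F B ξ‖ ^ (2 * j) := by
          have hn' : (((2 * j : ℕ) : ℝ)) ≠ 0 := by
            exact_mod_cast hn.ne'
          rw [Finset.sum_const, Finset.card_univ, Fintype.card_fin, nsmul_eq_mul, ← mul_assoc,
            mul_one_div_cancel hn', one_mul]
      _ = (N : ℝ) * (EA j B : ℝ) := energy_eq B j
  have h4 := le_of_mul_le_mul_left h2 hN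
  exact_mod_cast h4

end SD1

theorem SD1_holds : S_SD1 := by
  intro N _ j B c h hc
  rcases Nat.eq_zero_or_pos j with hj | hj
  · subst hj
    have h1 : EA 0 B = 1 := by
      simp [EA]
    rw [h1]
    refine (Finset.card_filter_le _ _).trans ?_
    simp
  · exact SD1.main j hj B c h hc

end Pool.Agent.H64.SD
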