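import Pool.Agent.H64.SD.Stm

/-! Project SD (helper64), task SD2 (helper44): transfer of SD1 to the integers. -/

set_option autoImplicit false

namespace Pool.Agent.H64.SD

open Finset
open scoped Pointwise BigOperators

namespace SD2

lemma eq_of_cast {N : ℕ} {x y : ℤ} (h : (x : ZMod N) = (y : ZMod N)) (hx : |y - x| < N) :
    x = y := by
  rw [ZMod.intCast_eq_intCast_iff_dvd_sub] at h
  have h1 := Int.eq_zero_of_abs_lt_dvd h hx
  omega

lemma abs_sum_le {j : ℕ} (x : Fin j → ℤ) (D : ℤ) (h : ∀ i, |x i| ≤ D) : |∑ i, x i| ≤ j * D := by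
  refine (Finset.abs_sum_le_sum_abs _ _).trans ?_
  have h1 := Finset.sum_le_card_nsmul (univ : Finset (Fin j)) (fun i => |x i|) D
    (fun i _ => h i)
  rw [Finset.card_univ, Fintype.card_fin, nsmul_eq_mul] at h1
  exact h1

theorem main (h1 : S_SD1) (j : ℕ) (B : Finset ℤ) (c : Fin (2 * j) → ℤ) (h : ℤ)
    (hc : ∀ i, c i ≠ 0) :
    ((Fintype.piFinset fun _ : Fin (2 * j) => B).filter fun x => ∑ i, c i * x i = h).card ≤
      EA j B := by
  obtain ⟨D, hD⟩ : ∃ D : ℤ, D = ∑ b ∈ B, |b| := ⟨_, rfl⟩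
  have hD0 : 0 ≤ D := by
    rw [hD]
    exact Finset.sum_nonneg fun b _ => abs_nonneg b
  have hDb : ∀ b ∈ B, |b| ≤ D := by
    intro b hb
    rw [hD]
    exact Finset.single_le_sum (f := fun b : ℤ => |b|) (fun a _ => abs_nonneg a) hb
  obtain ⟨P, hP⟩ : ∃ P : ℤ, P = 2 * D + (∑ i, |c i|) + 2 * (j * D) + 1 := ⟨_, rfl⟩
  obtain ⟨N, hNP, hN⟩ := Nat.exists_infinite_primes (P.toNat + 1)
  have : Fact N.Prime := ⟨hN⟩
  have hNP' : P < N := by
    have h2 := Int.self_le_toNat P
    have h3 : ((P.toNat + 1 : ℕ) : ℤ) ≤ N := by exact_mod_cast hNP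
    push_cast at h3
    linarith
  have hjD : 0 ≤ (j : ℤ) * D := by positivity
  have hcs : 0 ≤ ∑ i, |c i| := Finset.sum_nonneg fun i _ => abs_nonneg _
  have hinj : ∀ a ∈ B, ∀ b ∈ B, (a : ZMod N) = (b : ZMod N) → a = b := by
    intro a ha b hb hab
    refine eq_of_cast hab ?_
    have h2 := abs_le.1 (hDb a ha)
    have h3 := abs_le.1 (hDb b hb)
    rw [abs_lt]
    constructor <;> linarith [h2.1, h2.2, h3.1, h3.2]
  have hc' : ∀ i, ((c i : ℤ) : ZMod N) ≠ 0 := by
    intro i hi
    apply hc i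
    have h2 : ((c i : ℤ) : ZMod N) = ((0 : ℤ) : ZMod N) := by
      rw [hi, Int.cast_zero]
    refine eq_of_cast h2 ?_
    have h3 : |c i| ≤ ∑ i, |c i| :=
      Finset.single_le_sum (f := fun i => |c i|) (fun a _ => abs_nonneg _) (Finset.mem_univ i)
    rw [zero_sub, abs_neg]
    linarith
  obtain ⟨B', hB'⟩ : ∃ B' : Finset (ZMod N), B' = B.image (fun a : ℤ => (a : ZMod N)) := ⟨_, rfl⟩
  have hA : ((Fintype.piFinset fun _ : Fin (2 * j) => B).filter fun x =>
      ∑ i, c i * x i = h).card ≤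
      ((Fintype.piFinset fun _ : Fin (2 * j) => B').filter fun x =>
        ∑ i, (c i : ZMod N) * x i = (h : ZMod N)).card := by
    apply Finset.card_le_card_of_injOn (fun x i => ((x i : ℤ) : ZMod N))
    · intro x hx
      rw [mem_coe, mem_filter, Fintype.mem_piFinset] at hx
      rw [mem_coe, mem_filter, Fintype.mem_piFinset]
      refine ⟨fun i => ?_, ?_⟩
      · rw [hB']
        exact mem_image_of_mem _ (hx.1 i)
      · rw [← hx.2]
        push_cast
        rfl
    · intro x hx y hy hxy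
      rw [mem_coe, mem_filter, Fintype.mem_piFinset] at hx hy
      funext i
      exact hinj _ (hx.1 i) _ (hy.1 i) (congrFun hxy i)
  have hE : EA j B' ≤ EA j B := by
    have hg : ∀ b ∈ B', ∃ a : ℤ, a ∈ B ∧ (a : ZMod N) = b := by
      intro b hb
      rw [hB', mem_image] at hb
      exact hb
    choose! g hgB hgf using hg
    unfold EA
    apply Finset.card_le_card_of_injOn
      (fun p : (Fin j → ZMod N) × (Fin j → ZMod N) => (fun i => g (p.1 i), fun i => g (p.2 i)))
    · rintro ⟨x, y⟩ hp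
      rw [mem_coe, mem_filter, mem_product, Fintype.mem_piFinset, Fintype.mem_piFinset] at hp
      obtain ⟨⟨hx, hy⟩, hs⟩ := hp
      rw [mem_coe, mem_filter, mem_product, Fintype.mem_piFinset, Fintype.mem_piFinset]
      refine ⟨⟨fun i => hgB _ (hx i), fun i => hgB _ (hy i)⟩, ?_⟩
      refine eq_of_cast (N := N) ?_ ?_
      · have e1 : ((∑ i, g (x i) : ℤ) : ZMod N) = ∑ i, x i := by
          rw [Int.cast_sum]
          exact Finset.sum_congr rfl fun i _ => hgf _ (hx i)
        have e2 : ((∑ i, g (y i) : ℤ) : ZMod N) = ∑ i, y i := by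
          rw [Int.cast_sum]
          exact Finset.sum_congr rfl fun i _ => hgf _ (hy i)
        exact e1.trans (hs.trans e2.symm)
      · have e1 := abs_le.1 (abs_sum_le (fun i => g (x i)) D fun i => hDb _ (hgB _ (hx i)))
        have e2 := abs_le.1 (abs_sum_le (fun i => g (y i)) D fun i => hDb _ (hgB _ (hy i)))
        rw [abs_lt]
        constructor <;> linarith [e1.1, e1.2, e2.1, e2.2]
    · rintro ⟨x, y⟩ hp ⟨x', y'⟩ hp' he
      rw [mem_coe, mem_filter, mem_product, Fintype.mem_piFinset, Fintype.mem_piFinset] at hp hp'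
      obtain ⟨⟨hx, hy⟩, -⟩ := hp
      obtain ⟨⟨hx', hy'⟩, -⟩ := hp'
      have e1 : (fun i => g (x i)) = fun i => g (x' i) := congrArg Prod.fst he
      have e2 : (fun i => g (y i)) = fun i => g (y' i) := congrArg Prod.snd he
      have e3 : x = x' := by
        funext i
        exact (hgf _ (hx i)).symm.trans
          ((congrArg (fun a : ℤ => (a : ZMod N)) (congrFun e1 i)).trans (hgf _ (hx' i)))
      have e4 : y = y' := by
        funext i
        exact (hgf _ (hy i)).symm.trans
          ((congrArg (fun a : ℤ => (a : ZMod N)) (congrFun e2 i)).trans (hgf _ (hy' i)))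
      rw [e3, e4]
  exact hA.trans ((h1 N j B' (fun i => (c i : ZMod N)) (h : ZMod N) hc').trans hE)

end SD2

theorem SD2_holds : S_SD2 := fun h1 j B c h hc => SD2.main h1 j B c h hc

end Pool.Agent.H64.SD
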