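import Pool.Agent.H64.SD.Stm

/-!
# Project SD (helper64): task SD3, counting the `r`-subsets with a small relation (helper307)
-/

set_option autoImplicit false

namespace Pool.Agent.H64.SD

open Finset
open scoped Pointwise BigOperators

namespace SD3

/-- the set of the nonzero coefficients -/
noncomputable def cs (k : ℕ) : Finset ℤ := (Icc (-(k : ℤ)) k).erase 0

theorem card_cs (k : ℕ) : (cs k).card = 2 * k := by
  unfold cs
  rw [Finset.card_erase_of_mem, Int.card_Icc]
  · omega
  · rw [Finset.mem_Icc]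
    omega

theorem mem_cs {k : ℕ} {z : ℤ} : z ∈ cs k ↔ z ≠ 0 ∧ |z| ≤ k := by
  unfold cs
  rw [Finset.mem_erase, Finset.mem_Icc, abs_le]

/-- the odd case of the counting -/
theorem odd_count
    (H : ∀ (j : ℕ) (B : Finset ℤ) (c : Fin (2 * j) → ℤ) (h : ℤ), (∀ i, c i ≠ 0) →
      ((Fintype.piFinset fun _ : Fin (2 * j) => B).filter fun x => ∑ i, c i * x i = h).card ≤
        EA j B) (j : ℕ) (B : Finset ℤ) (c : Fin (2 * j + 1) → ℤ) (hc : ∀ i, c i ≠ 0) :
    ((Fintype.piFinset fun _ : Fin (2 * j + 1) => B).filter fun x => ∑ i, c i * x i = 0).card ≤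
      B.card * EA j B := by
  classical
  have hsub : ((Fintype.piFinset fun _ : Fin (2 * j + 1) => B).filter
      fun x => ∑ i, c i * x i = 0) ⊆
      B.biUnion fun b => (((Fintype.piFinset fun _ : Fin (2 * j) => B).filter
        fun y => ∑ i, c (Fin.castSucc i) * y i = -(c (Fin.last _) * b)).image
          fun y => (Fin.snoc y b : Fin (2 * j + 1) → ℤ)) := by
    intro x hx
    rw [Finset.mem_filter, Fintype.mem_piFinset] at hx
    rw [Finset.mem_biUnion]
    refine ⟨x (Fin.last _), hx.1 _, ?_⟩
    rw [Finset.mem_image]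
    refine ⟨fun i => x (Fin.castSucc i), ?_, ?_⟩
    · rw [Finset.mem_filter, Fintype.mem_piFinset]
      refine ⟨fun i => hx.1 _, ?_⟩
      have h1 := hx.2
      rw [Fin.sum_univ_castSucc] at h1
      linarith
    · exact Fin.snoc_init_self x
  refine (Finset.card_le_card hsub).trans (Finset.card_biUnion_le_card_mul _ _ _ ?_)
  intro b _
  exact Finset.card_image_le.trans (H j B (fun i => c (Fin.castSucc i)) _ fun i => hc _)

/-- both parities -/
theorem count
    (H : ∀ (j : ℕ) (B : Finset ℤ) (c : Fin (2 * j) → ℤ) (h : ℤ), (∀ i, c i ≠ 0) →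
      ((Fintype.piFinset fun _ : Fin (2 * j) => B).filter fun x => ∑ i, c i * x i = h).card ≤
        EA j B) (r : ℕ) (B : Finset ℤ) (c : Fin r → ℤ) (hc : ∀ i, c i ≠ 0) :
    ((Fintype.piFinset fun _ : Fin r => B).filter fun x => ∑ i, c i * x i = 0).card ≤
      B.card ^ (r % 2) * EA (r / 2) B := by
  obtain ⟨j, hj⟩ := Nat.even_or_odd' r
  rcases hj with hj | hj
  · subst hj
    have h1 : 2 * j % 2 = 0 := by omega
    have h2 : 2 * j / 2 = j := by omega
    rw [h1, h2, pow_zero, one_mul]
    exact H j B c 0 hc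
  · subst hj
    have h1 : (2 * j + 1) % 2 = 1 := by omega
    have h2 : (2 * j + 1) / 2 = j := by omega
    rw [h1, h2, pow_one]
    exact odd_count H j B c hc

end SD3

/-- **SD3.** -/
theorem SD3_holds : S_SD3 := by
  classical
  intro H k r B F hF
  have hsub : F ⊆ (Fintype.piFinset fun _ : Fin r => SD3.cs k).biUnion fun c =>
      (((Fintype.piFinset fun _ : Fin r => B).filter fun x => ∑ i, c i * x i = 0).image
        fun x => (Finset.univ.image x : Finset ℤ)) := by
    intro T hT
    obtain ⟨hTB, hTr, c, hc, hsum⟩ := hF T hT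
    have himg : Finset.univ.image (T.orderEmbOfFin hTr) = T := by
      apply Finset.coe_injective
      rw [Finset.coe_image, Finset.coe_univ, Set.image_univ]
      exact Finset.range_orderEmbOfFin T hTr
    have hmem : ∀ i, T.orderEmbOfFin hTr i ∈ T := fun i => Finset.orderEmbOfFin_mem T hTr i
    rw [Finset.mem_biUnion]
    refine ⟨fun i => c (T.orderEmbOfFin hTr i), ?_, ?_⟩
    · rw [Fintype.mem_piFinset]
      intro i
      rw [SD3.mem_cs]
      exact hc _ (hmem i)
    · rw [Finset.mem_image]
      refine ⟨T.orderEmbOfFin hTr, ?_, himg⟩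
      rw [Finset.mem_filter, Fintype.mem_piFinset]
      refine ⟨fun i => hTB (hmem i), ?_⟩
      rw [← hsum]
      have h1 : ∑ a ∈ Finset.univ.image (T.orderEmbOfFin hTr), c a * a =
          ∑ i, c (T.orderEmbOfFin hTr i) * (T.orderEmbOfFin hTr i) :=
        Finset.sum_image fun a _ b _ hab => (T.orderEmbOfFin hTr).injective hab
      rw [← h1, himg]
  refine (Finset.card_le_card hsub).trans ?_
  have h2 : (Fintype.piFinset fun _ : Fin r => SD3.cs k).card = (2 * k) ^ r := by
    rw [Fintype.card_piFinset_const, SD3.card_cs]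
  rw [← h2]
  refine Finset.card_biUnion_le_card_mul _ _ _ ?_
  intro c hc
  rw [Fintype.mem_piFinset] at hc
  exact Finset.card_image_le.trans
    (SD3.count H r B c fun i => (SD3.mem_cs.mp (hc i)).1)

end Pool.Agent.H64.SD
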