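import Pool.Agent.H64.SD.Stm

/-!
# SD4: deletion

A random subset `S` of `B` (every element with probability `p = 1 / M`) has the expected size
`p |B|`, and the expected number of the `T ∈ F` contained in it is `∑ p ^ |T|`.
-/

set_option autoImplicit false

namespace Pool.Agent.H64.SD

namespace SD4

open Finset
open scoped BigOperators

/-- the weight of a subset -/
noncomputable def wt (B : Finset ℤ) (p : ℝ) (S : Finset ℤ) : ℝ :=
  p ^ S.card * (1 - p) ^ (B.card - S.card)

theorem prob (B T : Finset ℤ) (hT : T ⊆ B) (p : ℝ) :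
    ∑ S ∈ B.powerset.filter (fun S => T ⊆ S), wt B p S = p ^ T.card := by
  have h1 : ∑ S ∈ B.powerset.filter (fun S => T ⊆ S), wt B p S =
      ∑ S ∈ (B \ T).powerset, p ^ T.card * (p ^ S.card * (1 - p) ^ ((B \ T).card - S.card)) := by
    refine Finset.sum_bij' (fun S _ => S \ T) (fun S _ => S ∪ T) ?_ ?_ ?_ ?_ ?_
    · intro S hS
      obtain ⟨h2, h3⟩ := Finset.mem_filter.1 hS
      exact Finset.mem_powerset.2 (Finset.sdiff_subset_sdiff (Finset.mem_powerset.1 h2)
        (Finset.Subset.refl T))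
    · intro S hS
      refine Finset.mem_filter.2 ⟨Finset.mem_powerset.2 (Finset.union_subset
        ((Finset.mem_powerset.1 hS).trans Finset.sdiff_subset) hT), Finset.subset_union_right⟩
    · intro S hS
      exact Finset.sdiff_union_of_subset (Finset.mem_filter.1 hS).2
    · intro S hS
      have h2 : Disjoint S T := by
        have h3 := Finset.mem_powerset.1 hS
        exact Finset.disjoint_of_subset_left h3 Finset.sdiff_disjoint
      rw [Finset.union_sdiff_right]
      exact Finset.sdiff_eq_self_of_disjoint h2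
    · intro S hS
      obtain ⟨h2, h3⟩ := Finset.mem_filter.1 hS
      have h4 := Finset.card_sdiff_add_card_eq_card h3
      have h5 := Finset.card_sdiff_add_card_eq_card hT
      have h6 := Finset.card_le_card (Finset.mem_powerset.1 h2)
      have h7 : B.card - S.card = (B \ T).card - (S \ T).card := by omega
      unfold wt
      rw [h7, ← h4, pow_add]
      ring
  rw [h1, ← Finset.mul_sum, Finset.sum_pow_mul_eq_add_pow, add_sub_cancel, one_pow, mul_one]

theorem wt_nonneg {B S : Finset ℤ} {p : ℝ} (h0 : 0 ≤ p) (h1 : p ≤ 1) : 0 ≤ wt B p S :=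
  mul_nonneg (pow_nonneg h0 _) (pow_nonneg (by linarith) _)

theorem exists_good (B : Finset ℤ) (F : Finset (Finset ℤ)) (hF : ∀ T ∈ F, T ⊆ B) {p : ℝ}
    (h0 : 0 < p) (h1 : p ≤ 1) :
    ∃ S ⊆ B, p * B.card - ∑ T ∈ F, p ^ T.card ≤
      (S.card : ℝ) - ((F.filter fun T => T ⊆ S).card : ℝ) := by
  by_contra hcon
  push Not at hcon
  have htot : ∑ S ∈ B.powerset, wt B p S = 1 := by
    unfold wt
    rw [Finset.sum_pow_mul_eq_add_pow, add_sub_cancel, one_pow]
  have hE1 : ∑ S ∈ B.powerset, wt B p S * (S.card : ℝ) = p * B.card := by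
    have h2 : ∀ S ∈ B.powerset, wt B p S * (S.card : ℝ) =
        ∑ b ∈ B, if {b} ⊆ S then wt B p S else 0 := by
      intro S hS
      have h3 : (B.filter fun b => {b} ⊆ S) = S := by
        ext b
        rw [Finset.mem_filter, Finset.singleton_subset_iff]
        exact ⟨fun h => h.2, fun h => ⟨Finset.mem_powerset.1 hS h, h⟩⟩
      rw [← Finset.sum_filter, h3, Finset.sum_const, nsmul_eq_mul, mul_comm]
    rw [Finset.sum_congr rfl h2, Finset.sum_comm]
    have h4 : ∀ b ∈ B, (∑ S ∈ B.powerset, if {b} ⊆ S then wt B p S else 0) = p := by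
      intro b hb
      rw [← Finset.sum_filter, prob B {b} (Finset.singleton_subset_iff.2 hb) p,
        Finset.card_singleton, pow_one]
    rw [Finset.sum_congr rfl h4, Finset.sum_const, nsmul_eq_mul, mul_comm]
  have hE2 : ∑ S ∈ B.powerset, wt B p S * ((F.filter fun T => T ⊆ S).card : ℝ) =
      ∑ T ∈ F, p ^ T.card := by
    have h2 : ∀ S ∈ B.powerset, wt B p S * ((F.filter fun T => T ⊆ S).card : ℝ) =
        ∑ T ∈ F, if T ⊆ S then wt B p S else 0 := by
      intro S _
      rw [← Finset.sum_filter, Finset.sum_const, nsmul_eq_mul, mul_comm]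
    rw [Finset.sum_congr rfl h2, Finset.sum_comm]
    refine Finset.sum_congr rfl fun T hT => ?_
    rw [← Finset.sum_filter, prob B T (hF T hT) p]
  have hE : ∑ S ∈ B.powerset, wt B p S *
      ((S.card : ℝ) - ((F.filter fun T => T ⊆ S).card : ℝ)) =
      p * B.card - ∑ T ∈ F, p ^ T.card := by
    rw [← hE1, ← hE2, ← Finset.sum_sub_distrib]
    refine Finset.sum_congr rfl fun S _ => ?_
    ring
  have hlt : ∑ S ∈ B.powerset, wt B p S *
      ((S.card : ℝ) - ((F.filter fun T => T ⊆ S).card : ℝ)) <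
      ∑ S ∈ B.powerset, wt B p S * (p * B.card - ∑ T ∈ F, p ^ T.card) := by
    refine Finset.sum_lt_sum ?_ ⟨B, Finset.mem_powerset.2 (Finset.Subset.refl B), ?_⟩
    · intro S hS
      exact mul_le_mul_of_nonneg_left (hcon S (Finset.mem_powerset.1 hS)).le
        (wt_nonneg h0.le h1)
    · have hw : 0 < wt B p B := by
        unfold wt
        rw [Nat.sub_self, pow_zero, mul_one]
        exact pow_pos h0 _
      exact mul_lt_mul_of_pos_left (hcon B (Finset.Subset.refl B)) hw
  rw [← Finset.sum_mul, htot, one_mul, hE] at hlt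
  exact lt_irrefl _ hlt

end SD4

open Finset SD4 in
theorem SD4_holds : S_SD4 := by
  intro B F M hM hF hsum
  have hM0 : (0 : ℝ) < M := by exact_mod_cast hM
  have hp0 : (0 : ℝ) < (M : ℝ)⁻¹ := inv_pos.2 hM0
  have hp1 : (M : ℝ)⁻¹ ≤ 1 := inv_le_one_of_one_le₀ (by exact_mod_cast hM)
  obtain ⟨S, hSB, hS⟩ := exists_good B F (fun T hT => (hF T hT).2) hp0 hp1
  -- choose one element of every `T`
  have hch : ∀ T : Finset ℤ, ∃ a : ℤ, T.Nonempty → a ∈ T := by
    intro T
    by_cases h : T.Nonempty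
    · obtain ⟨a, ha⟩ := h
      exact ⟨a, fun _ => ha⟩
    · exact ⟨0, fun h' => absurd h' h⟩
  choose g hg using hch
  refine ⟨S \ (F.filter fun T => T ⊆ S).image g, Finset.sdiff_subset.trans hSB, ?_, ?_⟩
  · intro T hT hTS
    have h1 : T ⊆ S := hTS.trans Finset.sdiff_subset
    have h2 := hTS (hg T (hF T hT).1)
    rw [Finset.mem_sdiff] at h2
    exact h2.2 (Finset.mem_image_of_mem g (Finset.mem_filter.2 ⟨hT, h1⟩))
  · have h1 : (S.card : ℝ) - ((F.filter fun T => T ⊆ S).card : ℝ) ≤
        ((S \ (F.filter fun T => T ⊆ S).image g).card : ℝ) := by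
      have h2 := Finset.le_card_sdiff ((F.filter fun T => T ⊆ S).image g) S
      have h3 : ((F.filter fun T => T ⊆ S).image g).card ≤ (F.filter fun T => T ⊆ S).card :=
        Finset.card_image_le
      have h4 : S.card ≤ (S \ (F.filter fun T => T ⊆ S).image g).card +
          (F.filter fun T => T ⊆ S).card := by omega
      have h5 : (S.card : ℝ) ≤ ((S \ (F.filter fun T => T ⊆ S).image g).card : ℝ) +
          ((F.filter fun T => T ⊆ S).card : ℝ) := by exact_mod_cast h4
      linarith
    have h2 : ∑ T ∈ F, ((M : ℝ)⁻¹) ^ T.card =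
        (M : ℝ)⁻¹ * ∑ T ∈ F, ((M : ℝ) ^ (T.card - 1))⁻¹ := by
      rw [Finset.mul_sum]
      refine Finset.sum_congr rfl fun T hT => ?_
      have h3 : 1 ≤ T.card := Finset.card_pos.2 (hF T hT).1
      obtain ⟨m, hm⟩ : ∃ m, T.card = m + 1 := ⟨T.card - 1, by omega⟩
      rw [hm, Nat.add_sub_cancel, pow_succ, inv_pow, mul_comm]
    rw [h2] at hS
    have h3 : (M : ℝ)⁻¹ * B.card - (M : ℝ)⁻¹ * ∑ T ∈ F, ((M : ℝ) ^ (T.card - 1))⁻¹ ≥
        (M : ℝ)⁻¹ * (B.card / 2) := by
      rw [← mul_sub]
      refine mul_le_mul_of_nonneg_left ?_ hp0.le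
      linarith
    have h4 : (M : ℝ)⁻¹ * (B.card / 2) ≤
        ((S \ (F.filter fun T => T ⊆ S).image g).card : ℝ) := by linarith
    have h5 : 2 * (M : ℝ) * ((M : ℝ)⁻¹ * (B.card / 2)) = B.card := by
      field_simp
    rw [← h5]
    exact mul_le_mul_of_nonneg_left h4 (by positivity)

end Pool.Agent.H64.SD
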