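import Pool.Agent.H64.SD.Stm

/-!
# Project SD, task SD5: two multisets with equal sums give a set with a small relation
-/

set_option autoImplicit false

namespace Pool.Agent.H64.SD

open Finset

namespace SD5

theorem sum_c (k : ℕ) (s t : Multiset ℤ) (hs : s.card = k) (ht : t.card = k) :
    ∑ a ∈ s.toFinset ∪ t.toFinset, ((s.count a : ℤ) - t.count a) = 0 := by
  have h1 : ∑ a ∈ s.toFinset ∪ t.toFinset, s.count a = s.card :=
    Multiset.sum_count_eq_card fun a ha =>
      Finset.mem_union_left _ (Multiset.mem_toFinset.2 ha)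
  have h2 : ∑ a ∈ s.toFinset ∪ t.toFinset, t.count a = t.card :=
    Multiset.sum_count_eq_card fun a ha =>
      Finset.mem_union_right _ (Multiset.mem_toFinset.2 ha)
  rw [Finset.sum_sub_distrib, ← Nat.cast_sum, ← Nat.cast_sum, h1, h2, hs, ht, sub_self]

theorem sum_ca (s t : Multiset ℤ) (hst : s.sum = t.sum) :
    ∑ a ∈ s.toFinset ∪ t.toFinset, ((s.count a : ℤ) - t.count a) * a = 0 := by
  have h1 : s.sum = ∑ a ∈ s.toFinset ∪ t.toFinset, s.count a • a :=
    Finset.sum_multiset_count_of_subset s _ Finset.subset_union_left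
  have h2 : t.sum = ∑ a ∈ s.toFinset ∪ t.toFinset, t.count a • a :=
    Finset.sum_multiset_count_of_subset t _ Finset.subset_union_right
  have h3 : ∑ a ∈ s.toFinset ∪ t.toFinset, ((s.count a : ℤ) - t.count a) * a =
      ∑ a ∈ s.toFinset ∪ t.toFinset, s.count a • a -
        ∑ a ∈ s.toFinset ∪ t.toFinset, t.count a • a := by
    rw [← Finset.sum_sub_distrib]
    refine Finset.sum_congr rfl fun a _ => ?_
    rw [nsmul_eq_mul, nsmul_eq_mul, sub_mul]
  rw [h3, ← h1, ← h2, hst, sub_self]

end SD5

open SD5 in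
theorem SD5_holds : S_SD5 := by
  intro k s t hs ht hst hne
  obtain ⟨U, hU⟩ : ∃ U, U = s.toFinset ∪ t.toFinset := ⟨_, rfl⟩
  obtain ⟨c, hc⟩ : ∃ c : ℤ → ℤ, c = fun a => (s.count a : ℤ) - t.count a := ⟨_, rfl⟩
  obtain ⟨T, hT⟩ : ∃ T, T = U.filter fun a => c a ≠ 0 := ⟨_, rfl⟩
  have hsub : T ⊆ U := by rw [hT]; exact Finset.filter_subset _ _
  have hoff : ∀ a ∈ U, a ∉ T → c a = 0 := by
    intro a ha haT
    by_contra h
    exact haT (by rw [hT]; exact Finset.mem_filter.2 ⟨ha, h⟩)
  have hon : ∀ a ∈ T, c a ≠ 0 := by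
    intro a ha
    rw [hT] at ha
    exact (Finset.mem_filter.1 ha).2
  have e1 : ∑ a ∈ T, c a = 0 := by
    rw [Finset.sum_subset hsub hoff, hU, hc]
    exact sum_c k s t hs ht
  have e2 : ∑ a ∈ T, c a * a = 0 := by
    rw [Finset.sum_subset hsub fun a ha haT => by rw [hoff a ha haT, zero_mul], hU, hc]
    exact sum_ca s t hst
  have hmemU : ∀ a ∈ U, a ∈ s ∨ a ∈ t := by
    intro a ha
    rw [hU] at ha
    rcases Finset.mem_union.1 ha with h | h
    · exact Or.inl (Multiset.mem_toFinset.1 h)
    · exact Or.inr (Multiset.mem_toFinset.1 h)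
  refine ⟨T, ?_, ?_, fun a ha => hmemU a (hsub ha), c, fun a ha => ⟨hon a ha, ?_⟩, e2⟩
  · by_contra hcard
    have h3 : T.card = 0 ∨ T.card = 1 ∨ T.card = 2 := by omega
    rcases h3 with h | h | h
    · apply hne
      refine Multiset.ext.2 fun a => ?_
      have hTe : T = ∅ := Finset.card_eq_zero.1 h
      by_cases ha : a ∈ U
      · have h4 := hoff a ha (by rw [hTe]; exact Finset.notMem_empty a)
        rw [hc] at h4
        simp only at h4
        omega
      · rw [hU, Finset.mem_union, not_or, Multiset.mem_toFinset, Multiset.mem_toFinset] at ha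
        rw [Multiset.count_eq_zero_of_notMem ha.1, Multiset.count_eq_zero_of_notMem ha.2]
    · obtain ⟨a, ha⟩ := Finset.card_eq_one.1 h
      rw [ha, Finset.sum_singleton] at e1
      exact hon a (by rw [ha]; exact Finset.mem_singleton_self a) e1
    · obtain ⟨a, b, hab, hTab⟩ := Finset.card_eq_two.1 h
      rw [hTab, Finset.sum_pair hab] at e1 e2
      have h5 : c a * (a - b) = 0 := by linear_combination e2 - b * e1
      rcases mul_eq_zero.1 h5 with h6 | h6
      · exact hon a (by rw [hTab]; exact Finset.mem_insert_self a _) h6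
      · exact hab (sub_eq_zero.1 h6)
  · calc T.card ≤ U.card := Finset.card_le_card hsub
      _ ≤ s.toFinset.card + t.toFinset.card := by rw [hU]; exact Finset.card_union_le _ _
      _ ≤ s.card + t.card := Nat.add_le_add (Multiset.toFinset_card_le s)
        (Multiset.toFinset_card_le t)
      _ = 2 * k := by rw [hs, ht]; ring
  · rw [hc]
    simp only
    have h1 := Multiset.count_le_card a s
    have h2 := Multiset.count_le_card a t
    rw [hs] at h1
    rw [ht] at h2
    rw [abs_le]
    constructor <;> omega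

end Pool.Agent.H64.SD
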