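import Pool.Agent.H64.SD.Stm

/-!
# SD6

Instead of digits: the polynomial with the coefficients `v_p` is evaluated at an integer which is
not a root of one of the finitely many nonzero differences.
-/

set_option autoImplicit false

namespace Pool.Agent.H64.SD

namespace SD6

open Polynomial

/-- the polynomial `∑ v_p(n) X ^ p` -/
noncomputable def P (n : ℕ) : ℤ[X] :=
  ∑ p ∈ n.factorization.support, C (n.factorization p : ℤ) * X ^ p

theorem coeff_P (n q : ℕ) : (P n).coeff q = (n.factorization q : ℤ) := by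
  classical
  unfold P
  rw [finsetSum_coeff]
  simp only [coeff_C_mul_X_pow]
  rw [Finset.sum_ite_eq]
  split_ifs with h
  · rfl
  · rw [Finsupp.notMem_support_iff] at h
    rw [h]
    rfl

theorem P_mul {a b : ℕ} (ha : a ≠ 0) (hb : b ≠ 0) : P (a * b) = P a + P b := by
  ext q
  rw [coeff_add, coeff_P, coeff_P, coeff_P, Nat.factorization_mul ha hb]
  push_cast
  simp

theorem P_one : P 1 = 0 := by
  ext q
  rw [coeff_P]
  simp

theorem P_inj {a b : ℕ} (ha : a ≠ 0) (hb : b ≠ 0) (h : P a = P b) : a = b := by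
  refine Nat.eq_of_factorization_eq ha hb fun q => ?_
  have := congrArg (fun f => coeff f q) h
  simp only [coeff_P] at this
  exact_mod_cast this

/-- the sum of the polynomials -/
noncomputable def Q (s : Multiset ℤ) : ℤ[X] := (s.map fun a => P a.natAbs).sum

theorem Q_eq (s : Multiset ℤ) (h : ∀ a ∈ s, a ≠ 0) :
    (s.map Int.natAbs).prod ≠ 0 ∧ Q s = P (s.map Int.natAbs).prod := by
  induction s using Multiset.induction_on with
  | empty => simp [Q, P_one]
  | cons a s ih =>
    obtain ⟨h1, h2⟩ := ih fun b hb => h b (Multiset.mem_cons_of_mem hb)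
    have ha : a.natAbs ≠ 0 := Int.natAbs_ne_zero.2 (h a (Multiset.mem_cons_self a s))
    have e : Q (a ::ₘ s) = P a.natAbs + Q s := by simp [Q]
    refine ⟨?_, ?_⟩
    · rw [Multiset.map_cons, Multiset.prod_cons]
      exact mul_ne_zero ha h1
    · rw [e, h2, Multiset.map_cons, Multiset.prod_cons, P_mul ha h1]

theorem sign_prod {ε : ℤ} (s : Multiset ℤ) (h : ∀ a ∈ s, a = ε * (a.natAbs : ℤ)) :
    s.prod = ε ^ (Multiset.card s) * (((s.map Int.natAbs).prod : ℕ) : ℤ) := by
  induction s using Multiset.induction_on with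
  | empty => simp
  | cons a s ih =>
    have h1 := ih fun b hb => h b (Multiset.mem_cons_of_mem hb)
    have ha := h a (Multiset.mem_cons_self a s)
    rw [Multiset.map_cons, Multiset.prod_cons, Multiset.prod_cons, Multiset.card_cons, h1]
    conv_lhs => rw [ha]
    push_cast
    ring

theorem eval_Q (R : ℤ) (s : Multiset ℤ) :
    (s.map fun a => (P a.natAbs).eval R).sum = (Q s).eval R := by
  induction s using Multiset.induction_on with
  | empty => simp [Q]
  | cons a s ih =>
    rw [Multiset.map_cons, Multiset.sum_cons, ih]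
    have e : Q (a ::ₘ s) = P a.natAbs + Q s := by simp [Q]
    rw [e, eval_add]

/-- an integer which is not a root of the nonzero differences -/
theorem exists_R (k : ℕ) (C : Finset ℤ) : ∃ R : ℤ, ∀ j ≤ k, ∀ s t : Multiset ℤ,
    Multiset.card s = j → Multiset.card t = j → (∀ a ∈ s, a ∈ C) → (∀ a ∈ t, a ∈ C) →
    (Q s).eval R = (Q t).eval R → Q s = Q t := by
  classical
  set B : Finset ℤ := (Finset.range (k + 1)).biUnion fun j =>
    ((C.sym j) ×ˢ (C.sym j)).biUnion fun p =>
      (Q (p.1 : Multiset ℤ) - Q (p.2 : Multiset ℤ)).roots.toFinset with hB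
  obtain ⟨R, hR⟩ := Infinite.exists_notMem_finset B
  refine ⟨R, fun j hj s t hs ht hsC htC h => ?_⟩
  by_contra hne
  apply hR
  rw [hB, Finset.mem_biUnion]
  refine ⟨j, Finset.mem_range.2 (by omega), ?_⟩
  rw [Finset.mem_biUnion]
  refine ⟨((⟨s, hs⟩ : Sym ℤ j), (⟨t, ht⟩ : Sym ℤ j)), ?_, ?_⟩
  · rw [Finset.mem_product]
    exact ⟨Finset.mem_sym_iff.2 fun a ha => hsC a ha, Finset.mem_sym_iff.2 fun a ha => htC a ha⟩
  · have h1 : R ∈ (Q s - Q t).roots := by
      rw [mem_roots (sub_ne_zero.2 hne), IsRoot.def, eval_sub]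
      exact sub_eq_zero.2 h
    exact Multiset.mem_toFinset.2 h1

end SD6

open SD6 in
theorem SD6_holds : S_SD6 := by
  intro k C hk hC
  obtain ⟨R, hR⟩ := exists_R k C
  obtain ⟨ε, hε⟩ : ∃ ε : ℤ, ∀ a ∈ C, a = ε * (a.natAbs : ℤ) := by
    rcases hC with h | h
    · refine ⟨1, fun a ha => ?_⟩
      have := h a ha
      omega
    · refine ⟨-1, fun a ha => ?_⟩
      have := h a ha
      omega
  have h0 : ∀ a ∈ C, a ≠ 0 := by
    intro a ha
    rcases hC with h | h
    · exact (h a ha).ne'
    · exact (h a ha).ne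
  have key : ∀ j ≤ k, ∀ s t : Multiset ℤ, s.card = j → t.card = j →
      (∀ a ∈ s, a ∈ C) → (∀ a ∈ t, a ∈ C) → (s.prod = t.prod ↔
        (s.map fun a => (P a.natAbs).eval R).sum = (t.map fun a => (P a.natAbs).eval R).sum) := by
    intro j hj s t hs ht hsC htC
    obtain ⟨s1, s2⟩ := Q_eq s fun a ha => h0 a (hsC a ha)
    obtain ⟨t1, t2⟩ := Q_eq t fun a ha => h0 a (htC a ha)
    have s3 := sign_prod s fun a ha => hε a (hsC a ha)
    have t3 := sign_prod t fun a ha => hε a (htC a ha)
    rw [eval_Q, eval_Q]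
    constructor
    · intro h
      have h1 : (s.map Int.natAbs).prod = (t.map Int.natAbs).prod := by
        have e : ∀ u : Multiset ℤ, u.prod.natAbs = (u.map Int.natAbs).prod := by
          intro u
          induction u using Multiset.induction_on with
          | empty => simp
          | cons a u ih => rw [Multiset.map_cons, Multiset.prod_cons, Multiset.prod_cons,
              Int.natAbs_mul, ih]
        rw [← e, ← e, h]
      rw [s2, t2, h1]
    · intro h
      have h1 := hR j hj s t hs ht hsC htC h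
      rw [s2, t2] at h1
      have h2 := P_inj s1 t1 h1
      rw [s3, t3, h2, hs, ht]
  refine ⟨fun a => (P a.natAbs).eval R, fun a ha b hb hab => ?_, key⟩
  have := (key 1 hk {a} {b} (by simp) (by simp) (by simpa using ha) (by simpa using hb)).2
    (by simpa using hab)
  simpa using this

end Pool.Agent.H64.SD
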