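import Pool.Agent.H64.SD.Stm

/-!
# Project SD, SD7: transfer of energies and of `B_k` subsets (helper227)
-/

set_option autoImplicit false

namespace Pool.Agent.H64.SD

open Finset
open scoped Pointwise BigOperators

namespace SD7

/-- Sums over the image tuple as sums over a multiset. -/
theorem sum_tuple (j : ℕ) (φ : ℤ → ℤ) (x : Fin j → ℤ) :
    (((Finset.univ : Finset (Fin j)).val.map x).map φ).sum = ∑ i, φ (x i) := by
  rw [Multiset.map_map]
  rfl

theorem prod_tuple (j : ℕ) (x : Fin j → ℤ) :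
    ((Finset.univ : Finset (Fin j)).val.map x).prod = ∏ i, x i := rfl

theorem card_tuple (j : ℕ) (x : Fin j → ℤ) :
    ((Finset.univ : Finset (Fin j)).val.map x).card = j := by
  rw [Multiset.card_map]
  show (Finset.univ : Finset (Fin j)).card = j
  rw [Finset.card_univ, Fintype.card_fin]

theorem mem_tuple (j : ℕ) (C : Finset ℤ) (x : Fin j → ℤ) (hx : ∀ i, x i ∈ C) :
    ∀ a ∈ (Finset.univ : Finset (Fin j)).val.map x, a ∈ C := by
  intro a ha
  rw [Multiset.mem_map] at ha
  obtain ⟨i, _, hi⟩ := ha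
  rw [← hi]
  exact hx i

/-- The equivalence of the two equations for tuples. -/
theorem iff_tuple (k j : ℕ) (C : Finset ℤ) (φ : ℤ → ℤ) (hj : j ≤ k)
    (hφ : ∀ j ≤ k, ∀ s t : Multiset ℤ, s.card = j → t.card = j →
      (∀ a ∈ s, a ∈ C) → (∀ a ∈ t, a ∈ C) → (s.prod = t.prod ↔ (s.map φ).sum = (t.map φ).sum))
    (x y : Fin j → ℤ) (hx : ∀ i, x i ∈ C) (hy : ∀ i, y i ∈ C) :
    ∏ i, x i = ∏ i, y i ↔ ∑ i, φ (x i) = ∑ i, φ (y i) := by
  have h := hφ j hj ((Finset.univ : Finset (Fin j)).val.map x)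
    ((Finset.univ : Finset (Fin j)).val.map y) (card_tuple j x) (card_tuple j y)
    (mem_tuple j C x hx) (mem_tuple j C y hy)
  rw [sum_tuple, sum_tuple, prod_tuple, prod_tuple] at h
  exact h

theorem energy (k j : ℕ) (C : Finset ℤ) (φ : ℤ → ℤ) (hj : j ≤ k) (hinj : Set.InjOn φ C)
    (hφ : ∀ j ≤ k, ∀ s t : Multiset ℤ, s.card = j → t.card = j →
      (∀ a ∈ s, a ∈ C) → (∀ a ∈ t, a ∈ C) → (s.prod = t.prod ↔ (s.map φ).sum = (t.map φ).sum)) :
    EA j (C.image φ) = EM j C := by
  unfold EA EM
  symm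
  refine Finset.card_bij (fun p _ => ((fun i => φ (p.1 i)), (fun i => φ (p.2 i)))) ?_ ?_ ?_
  · intro p hp
    rw [Finset.mem_filter, Finset.mem_product, Fintype.mem_piFinset, Fintype.mem_piFinset] at hp
    obtain ⟨⟨h1, h2⟩, h3⟩ := hp
    rw [Finset.mem_filter, Finset.mem_product, Fintype.mem_piFinset, Fintype.mem_piFinset]
    refine ⟨⟨fun i => Finset.mem_image_of_mem φ (h1 i), fun i => Finset.mem_image_of_mem φ (h2 i)⟩, ?_⟩
    exact (iff_tuple k j C φ hj hφ p.1 p.2 h1 h2).mp h3
  · intro p hp p' hp' he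
    rw [Finset.mem_filter, Finset.mem_product, Fintype.mem_piFinset, Fintype.mem_piFinset] at hp hp'
    obtain ⟨⟨h1, h2⟩, h3⟩ := hp
    obtain ⟨⟨h1', h2'⟩, h3'⟩ := hp'
    have e1 := congrArg Prod.fst he
    have e2 := congrArg Prod.snd he
    refine Prod.ext ?_ ?_
    · funext i
      exact hinj (h1 i) (h1' i) (congrFun e1 i)
    · funext i
      exact hinj (h2 i) (h2' i) (congrFun e2 i)
  · intro p hp
    rw [Finset.mem_filter, Finset.mem_product, Fintype.mem_piFinset, Fintype.mem_piFinset] at hp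
    obtain ⟨⟨h1, h2⟩, h3⟩ := hp
    have g1 : ∀ i, ∃ c, c ∈ C ∧ φ c = p.1 i := fun i => Finset.mem_image.mp (h1 i)
    have g2 : ∀ i, ∃ c, c ∈ C ∧ φ c = p.2 i := fun i => Finset.mem_image.mp (h2 i)
    choose x hx using g1
    choose y hy using g2
    have ex : (fun i => φ (x i)) = p.1 := by
      funext i
      exact (hx i).2
    have ey : (fun i => φ (y i)) = p.2 := by
      funext i
      exact (hy i).2
    have h4 : ∏ i, x i = ∏ i, y i := by
      rw [iff_tuple k j C φ hj hφ x y (fun i => (hx i).1) (fun i => (hy i).1)]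
      calc ∑ i, φ (x i) = ∑ i, p.1 i := Finset.sum_congr rfl (fun i _ => (hx i).2)
        _ = ∑ i, p.2 i := h3
        _ = ∑ i, φ (y i) := Finset.sum_congr rfl (fun i _ => ((hy i).2).symm)
    refine ⟨(x, y), ?_, ?_⟩
    · rw [Finset.mem_filter, Finset.mem_product, Fintype.mem_piFinset, Fintype.mem_piFinset]
      exact ⟨⟨fun i => (hx i).1, fun i => (hy i).1⟩, h4⟩
    · exact Prod.ext ex ey

end SD7

/-- **SD7.** -/
theorem SD7_holds : S_SD7 := by
  intro h6 k C hk hsign
  obtain ⟨φ, hinj, hφ⟩ := h6 k C hk hsign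
  refine ⟨C.image φ, Finset.card_image_of_injOn hinj, ?_, ?_⟩
  · intro j hj
    exact SD7.energy k j C φ hj hinj hφ
  · intro S' hS' hB
    refine ⟨C.filter (fun a => φ a ∈ S'), Finset.filter_subset _ _, ?_, ?_⟩
    · have e : (C.filter (fun a => φ a ∈ S')).image φ = S' := by
        ext b
        rw [Finset.mem_image]
        constructor
        · rintro ⟨a, ha, hab⟩
          rw [Finset.mem_filter] at ha
          rw [← hab]
          exact ha.2
        · intro hb
          obtain ⟨a, ha, hab⟩ := Finset.mem_image.mp (hS' hb)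
          refine ⟨a, ?_, hab⟩
          rw [Finset.mem_filter]
          refine ⟨ha, ?_⟩
          rw [hab]
          exact hb
      have e2 : ((C.filter (fun a => φ a ∈ S')).image φ).card = (C.filter (fun a => φ a ∈ S')).card := by
        apply Finset.card_image_of_injOn
        intro a ha b hb hab
        have ha' := (Finset.mem_filter.mp ha).1
        have hb' := (Finset.mem_filter.mp hb).1
        exact hinj ha' hb' hab
      rw [← e2, e]
    · intro s t hs ht hsS htS hp
      have hsC : ∀ a ∈ s, a ∈ C := fun a ha => (Finset.mem_filter.mp (hsS a ha)).1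
      have htC : ∀ a ∈ t, a ∈ C := fun a ha => (Finset.mem_filter.mp (htS a ha)).1
      have h1 : (s.map φ).sum = (t.map φ).sum := (hφ k le_rfl s t hs ht hsC htC).mp hp
      have h2 : s.map φ = t.map φ := by
        apply hB
        · rw [Multiset.card_map]; exact hs
        · rw [Multiset.card_map]; exact ht
        · intro a ha
          obtain ⟨b, hb, hba⟩ := Multiset.mem_map.mp ha
          rw [← hba]
          exact (Finset.mem_filter.mp (hsS b hb)).2
        · intro a ha
          obtain ⟨b, hb, hba⟩ := Multiset.mem_map.mp ha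
          rw [← hba]
          exact (Finset.mem_filter.mp (htS b hb)).2
        · exact h1
      obtain ⟨ψ, hψ⟩ : ∃ ψ : ℤ → ℤ, ∀ a ∈ C, ψ (φ a) = a :=
        ⟨Function.invFunOn φ (C : Set ℤ), fun a ha =>
          hinj.leftInvOn_invFunOn ha⟩
      have key : ∀ u : Multiset ℤ, (∀ a ∈ u, a ∈ C) → (u.map φ).map ψ = u := by
        intro u hu
        rw [Multiset.map_map]
        have : u.map (ψ ∘ φ) = u.map id := Multiset.map_congr rfl (fun a ha => hψ a (hu a ha))
        rw [this, Multiset.map_id]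
      rw [← key s hsC, ← key t htC, h2]

end Pool.Agent.H64.SD
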