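import Mathlib
import Pool.Agent.H64.ES.Final3
import Pool.Agent.H64.SD.SD1
import Pool.Agent.H64.SD.SD2
import Pool.Agent.H64.SD.SD3
import Pool.Agent.H64.SD.SD4
import Pool.Agent.H64.SD.SD5
import Pool.Agent.H64.SD.SD6
import Pool.Agent.H64.SD.SD7
import Pool.Agent.H64.SD.SD8

/-!
# Large additive or multiplicative `B_k` subsets
-/

set_option autoImplicit false

namespace Pool.Agent.H64.SD

open Finset Real

theorem EM_mono (k : ℕ) (B C : Finset ℤ) (h : B ⊆ C) : EM k B ≤ EM k C := by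
  unfold EM
  refine Finset.card_le_card ?_
  intro p hp
  rw [Finset.mem_filter, Finset.mem_product, Fintype.mem_piFinset, Fintype.mem_piFinset] at hp ⊢
  exact ⟨⟨fun i => h (hp.1.1 i), fun i => h (hp.1.2 i)⟩, hp.2⟩

/-- Every finite set of nonzero integers has an additive or a multiplicative `B_k` subset of size at
least `c_k |A| ^ ((1 + log k / (4 · 10 ^ 8)) / (2 k - 1))`. -/
theorem bk_subset (k : ℕ) (hk : 1 ≤ k) : ∃ c : ℝ, 0 < c ∧ ∀ A : Finset ℤ, (0 : ℤ) ∉ A →
    ∃ S ⊆ A, (BkA k S ∨ BkM k S) ∧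
      c * (A.card : ℝ) ^ ((1 + Real.log k / (4 * 10 ^ 8)) / (2 * (k : ℝ) - 1)) ≤ S.card := by
  rcases Nat.eq_or_lt_of_le hk with h1 | hk2
  · subst h1
    refine ⟨1, one_pos, fun A _ => ⟨A, subset_rfl, Or.inl ?_, ?_⟩⟩
    · intro s t hs ht _ _ hst
      rw [Multiset.card_eq_one] at hs ht
      obtain ⟨a, rfl⟩ := hs
      obtain ⟨b, rfl⟩ := ht
      simpa using hst
    · norm_num
  have h2 := SD2_holds SD1_holds
  have h3 := SD3_holds h2
  obtain ⟨γ, hγ⟩ : ∃ γ : ℝ, γ = 1 / (4 * 10 ^ 8) := ⟨_, rfl⟩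
  have hγ0 : 0 < γ := by rw [hγ]; norm_num
  have hγ1 : γ ≤ 1 / 2 := by rw [hγ]; norm_num
  have hγl : ∀ x : ℝ, x / (4 * 10 ^ 8) = γ * x := fun x => by rw [hγ]; ring
  obtain ⟨C, hC, hdec⟩ := Pool.Agent.H64.ES.decomp1 Pool.Agent.H64.ES.parts k
  obtain ⟨c1, hc1, hadd⟩ := SD8_holds h3 SD4_holds SD5_holds k γ 1 hk2 hγ0 hγ1 one_pos
  obtain ⟨c2, hc2, hmul⟩ := SD8_holds h3 SD4_holds SD5_holds k γ (C * 4 ^ (2 * k)) hk2 hγ0 hγ1
    (by positivity)
  have hkR : (2 : ℝ) ≤ k := by exact_mod_cast hk2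
  obtain ⟨θ, hθ⟩ : ∃ θ : ℝ, θ = (1 + γ * Real.log k) / (2 * (k : ℝ) - 1) := ⟨_, rfl⟩
  have hlk : 0 ≤ Real.log k := Real.log_nonneg (by linarith)
  have hθ0 : 0 ≤ θ := by
    rw [hθ]
    have : 0 ≤ γ * Real.log k := mul_nonneg hγ0.le hlk
    exact div_nonneg (by linarith) (by linarith)
  refine ⟨min c1 (c2 / 4 ^ θ), lt_min hc1 (by positivity), fun A h0 => ?_⟩
  rw [hγl, ← hθ]
  rcases Finset.eq_empty_or_nonempty A with hAe | hAne
  · subst hAe
    refine ⟨∅, subset_rfl, Or.inl ?_, ?_⟩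
    · intro s t hs ht h _ _
      exfalso
      have : s = 0 := Multiset.eq_zero_of_forall_notMem fun a ha => by simpa using h a ha
      rw [this] at hs
      simp at hs
      omega
    · have hθp : θ ≠ 0 := by
        rw [hθ]
        have : 0 ≤ γ * Real.log k := mul_nonneg hγ0.le hlk
        exact (div_pos (by linarith) (by linarith)).ne'
      simp [Real.zero_rpow hθp]
  obtain ⟨B, hBA, hB⟩ := hdec A h0
  have hcard : A.card = B.card + (A \ B).card := by
    rw [Finset.card_sdiff_of_subset hBA]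
    have := Finset.card_le_card hBA
    omega
  have hA1 : 1 ≤ A.card := hAne.card_pos
  by_cases hbig : A.card ≤ 2 * B.card
  · -- the additive case
    obtain ⟨S, hS, hS2, hS3⟩ := hadd A.card B hA1 (Finset.card_le_card hBA) hbig fun j hj1 hj2 => by
      have := (hB j hj1 hj2).1
      rw [hγl] at this
      rw [one_mul]
      exact this
    refine ⟨S, hS.trans hBA, Or.inl hS2, ?_⟩
    rw [← hθ] at hS3
    exact (mul_le_mul_of_nonneg_right (min_le_left _ _)
      (Real.rpow_nonneg (Nat.cast_nonneg _) _)).trans hS3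
  · -- the multiplicative case
    obtain ⟨D, hD, hD1, hD2⟩ : ∃ D ⊆ A \ B, ((∀ a ∈ D, 0 < a) ∨ (∀ a ∈ D, a < 0)) ∧
        A.card ≤ 4 * D.card := by
      have hsplit := Finset.card_filter_add_card_filter_not (s := A \ B) (fun a : ℤ => 0 < a)
      by_cases hh : (A \ B).card ≤ 2 * ((A \ B).filter fun a => 0 < a).card
      · refine ⟨(A \ B).filter fun a => 0 < a, Finset.filter_subset _ _, Or.inl fun a ha =>
          (Finset.mem_filter.1 ha).2, by omega⟩
      · refine ⟨(A \ B).filter fun a => ¬ 0 < a, Finset.filter_subset _ _, Or.inr fun a ha => ?_,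
          by omega⟩
        have h5 := Finset.mem_filter.1 ha
        have h6 : a ≠ 0 := fun h => h0 (h ▸ (Finset.mem_sdiff.1 h5.1).1)
        have h7 := h5.2
        omega
    have hDne : 1 ≤ D.card := by omega
    obtain ⟨D', hD'c, hD'E, hD'S⟩ := SD7_holds SD6_holds k D hk hD1
    have hDR : (A.card : ℝ) ≤ 4 * D.card := by exact_mod_cast hD2
    have hDp : (0 : ℝ) < D.card := by exact_mod_cast hDne
    obtain ⟨S', hS', hS2, hS3⟩ := hmul D.card D' hDne (le_of_eq hD'c) (by rw [hD'c]; omega)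
      fun j hj1 hj2 => by
        rw [hD'E j hj2]
        have e1 : (EM j D : ℝ) ≤ EM j (A \ B) := by exact_mod_cast EM_mono j D _ hD
        have e2 : (EM j (A \ B) : ℝ) ≤ C * (A.card : ℝ) ^ (2 * (j : ℝ) - 1 - γ * Real.log j) := by
          have := (hB j hj1 hj2).2
          rw [hγl] at this
          exact this
        have hj1R : (1 : ℝ) ≤ j := by exact_mod_cast hj1
        have hj2R : (j : ℝ) ≤ k := by exact_mod_cast hj2
        have e3 : 0 ≤ 2 * (j : ℝ) - 1 - γ * Real.log j := by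
          have t1 : Real.log j ≤ j - 1 := Real.log_le_sub_one_of_pos (by linarith)
          have t2 : 0 ≤ Real.log j := Real.log_nonneg hj1R
          have t3 : γ * Real.log j ≤ 1 / 2 * (j - 1) := by
            calc γ * Real.log j ≤ 1 / 2 * Real.log j := mul_le_mul_of_nonneg_right hγ1 t2
              _ ≤ 1 / 2 * (j - 1) := by linarith
          linarith
        have e4 : (A.card : ℝ) ^ (2 * (j : ℝ) - 1 - γ * Real.log j) ≤
            (4 * (D.card : ℝ)) ^ (2 * (j : ℝ) - 1 - γ * Real.log j) :=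
          Real.rpow_le_rpow (Nat.cast_nonneg _) hDR e3
        rw [Real.mul_rpow (by norm_num) hDp.le] at e4
        have e5 : (4 : ℝ) ^ (2 * (j : ℝ) - 1 - γ * Real.log j) ≤ 4 ^ (2 * k) := by
          rw [← Real.rpow_natCast]
          refine Real.rpow_le_rpow_of_exponent_le (by norm_num) ?_
          have t2 : 0 ≤ γ * Real.log j := mul_nonneg hγ0.le (Real.log_nonneg hj1R)
          push_cast
          linarith
        have e6 : (4 : ℝ) ^ (2 * (j : ℝ) - 1 - γ * Real.log j) *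
            (D.card : ℝ) ^ (2 * (j : ℝ) - 1 - γ * Real.log j) ≤
            4 ^ (2 * k) * (D.card : ℝ) ^ (2 * (j : ℝ) - 1 - γ * Real.log j) :=
          mul_le_mul_of_nonneg_right e5 (Real.rpow_nonneg (Nat.cast_nonneg _) _)
        calc (EM j D : ℝ) ≤ C * (A.card : ℝ) ^ (2 * (j : ℝ) - 1 - γ * Real.log j) := e1.trans e2
          _ ≤ C * (4 ^ (2 * k) * (D.card : ℝ) ^ (2 * (j : ℝ) - 1 - γ * Real.log j)) :=
              mul_le_mul_of_nonneg_left (e4.trans e6) hC.le
          _ = _ := by ring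
    obtain ⟨S, hSD, hSc, hSM⟩ := hD'S S' hS' hS2
    refine ⟨S, (hSD.trans hD).trans Finset.sdiff_subset, Or.inr hSM, ?_⟩
    rw [← hθ] at hS3
    rw [hSc]
    refine le_trans ?_ hS3
    have e1 : (A.card : ℝ) ^ θ ≤ 4 ^ θ * (D.card : ℝ) ^ θ := by
      rw [← Real.mul_rpow (by norm_num) hDp.le]
      exact Real.rpow_le_rpow (Nat.cast_nonneg _) hDR hθ0
    have h4 : (0 : ℝ) < 4 ^ θ := Real.rpow_pos_of_pos (by norm_num) _
    calc min c1 (c2 / 4 ^ θ) * (A.card : ℝ) ^ θ ≤ c2 / 4 ^ θ * (A.card : ℝ) ^ θ :=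
          mul_le_mul_of_nonneg_right (min_le_right _ _) (Real.rpow_nonneg (Nat.cast_nonneg _) _)
      _ ≤ c2 / 4 ^ θ * (4 ^ θ * (D.card : ℝ) ^ θ) :=
          mul_le_mul_of_nonneg_left e1 (div_pos hc2 h4).le
      _ = c2 * (D.card : ℝ) ^ θ := by rw [← mul_assoc, div_mul_cancel₀ _ h4.ne']

end Pool.Agent.H64.SD
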