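import Pool.Agent.H64.SD.Stm

/-!
# Deletion with general exponents

The proof of `SD8_holds` for a general saving `g` in the energies.
-/

set_option autoImplicit false

namespace Pool.Agent.H64.SD

open Finset

/-- If the `j`-fold additive energies of `B` are at most `D n ^ (2 j - 1 - g j)`, and
`(r - 1) θ ≤ 1 + g (r / 2)` for `3 ≤ r ≤ 2 k`, then `B` has a `B_k` subset of size at least
`c n ^ θ`. -/
theorem general (hcount : ∀ (k r : ℕ) (B : Finset ℤ) (F : Finset (Finset ℤ)),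
    (∀ T ∈ F, T ⊆ B ∧ T.card = r ∧ Rel k T) →
      F.card ≤ (2 * k) ^ r * (B.card ^ (r % 2) * EA (r / 2) B)) (h4 : S_SD4) (h5 : S_SD5)
    (k : ℕ) (θ D : ℝ) (g : ℕ → ℝ) (hk : 2 ≤ k) (hθ1 : θ ≤ 1) (hD : 0 < D)
    (expo : ∀ r : ℕ, 3 ≤ r → r ≤ 2 * k → ((r : ℝ) - 1) * θ ≤ 1 + g (r / 2)) :
    ∃ c : ℝ, 0 < c ∧
    ∀ (n : ℕ) (B : Finset ℤ), 1 ≤ n → B.card ≤ n → n ≤ 2 * B.card →
      (∀ j : ℕ, 1 ≤ j → j ≤ k → (EA j B : ℝ) ≤ D * (n : ℝ) ^ (2 * (j : ℝ) - 1 - g j)) →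
      ∃ S ⊆ B, BkA k S ∧ c * (n : ℝ) ^ θ ≤ S.card := by
  classical
  obtain ⟨K, hK⟩ : ∃ K : ℝ, K = (2 * (k : ℝ)) ^ (2 * k) := ⟨_, rfl⟩
  obtain ⟨Y, hY⟩ : ∃ Y : ℝ, Y = 8 * k * K * D + 1 := ⟨_, rfl⟩
  have hk1 : (2 : ℝ) ≤ k := by exact_mod_cast hk
  have hkpos : (0 : ℝ) < k := by linarith
  have hKpos : 0 < K := by rw [hK]; positivity
  have h8 : 0 < 8 * k * K * D := by positivity
  have hYpos : 0 < Y := by linarith
  have hY1 : 1 ≤ Y := by linarith
  refine ⟨1 / (8 * Y), by positivity, ?_⟩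
  intro n B hn hBn hnB hE
  have hn1 : (1 : ℝ) ≤ n := by exact_mod_cast hn
  have hnpos : (0 : ℝ) < n := by linarith
  have hBnR : (B.card : ℝ) ≤ n := by exact_mod_cast hBn
  have hnBR : (n : ℝ) ≤ 2 * B.card := by exact_mod_cast hnB
  obtain ⟨F, hF⟩ : ∃ F : Finset (Finset ℤ),
      F = B.powerset.filter fun T => 3 ≤ T.card ∧ T.card ≤ 2 * k ∧ Rel k T := ⟨_, rfl⟩
  have memF : ∀ T, T ∈ F ↔ T ⊆ B ∧ 3 ≤ T.card ∧ T.card ≤ 2 * k ∧ Rel k T := by
    intro T
    rw [hF, mem_filter, mem_powerset]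
  obtain ⟨P, hP⟩ : ∃ P : ℝ, P = (n : ℝ) ^ (1 - θ) := ⟨_, rfl⟩
  have hP1 : 1 ≤ P := by
    rw [hP]
    exact Real.one_le_rpow hn1 (by linarith)
  have hPpos : 0 < P := by linarith
  have hYP : 1 ≤ Y * P := by nlinarith
  obtain ⟨M, hM⟩ : ∃ M : ℕ, M = ⌈Y * P⌉₊ := ⟨_, rfl⟩
  have hMlo : Y * P ≤ M := by rw [hM]; exact Nat.le_ceil _
  have hMhi : (M : ℝ) ≤ 2 * (Y * P) := by
    rw [hM]
    have := Nat.ceil_lt_add_one (show 0 ≤ Y * P by positivity)
    linarith
  have hM1R : (1 : ℝ) ≤ M := by linarith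
  have hM1 : 1 ≤ M := by exact_mod_cast hM1R
  have hMpos : (0 : ℝ) < M := by linarith
  -- the contribution of each size
  have hsize : ∀ r ∈ Icc 3 (2 * k),
      ∑ T ∈ F.filter (fun T => T.card = r), ((M : ℝ) ^ (T.card - 1))⁻¹ ≤ K * D * Y⁻¹ * n := by
    intro r hr
    rw [mem_Icc] at hr
    obtain ⟨hr3, hr2⟩ := hr
    have hsum : ∑ T ∈ F.filter (fun T => T.card = r), ((M : ℝ) ^ (T.card - 1))⁻¹ =
        ((F.filter (fun T => T.card = r)).card : ℝ) * ((M : ℝ) ^ (r - 1))⁻¹ := by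
      rw [← nsmul_eq_mul]
      rw [← sum_const]
      apply sum_congr rfl
      intro T hT
      rw [mem_filter] at hT
      rw [hT.2]
    rw [hsum]
    have hcard := hcount k r B (F.filter (fun T => T.card = r)) (by
      intro T hT
      rw [mem_filter, memF] at hT
      exact ⟨hT.1.1, hT.2, hT.1.2.2.2⟩)
    obtain ⟨j, hj⟩ : ∃ j, j = r / 2 := ⟨_, rfl⟩
    rw [← hj] at hcard
    have hj1 : 1 ≤ j := by omega
    have hjk : j ≤ k := by omega
    have hEj := hE j hj1 hjk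
    have hexp := expo r hr3 hr2
    rw [← hj] at hexp
    have hcardR : ((F.filter (fun T => T.card = r)).card : ℝ) ≤
        (2 * k) ^ r * ((B.card : ℝ) ^ (r % 2) * EA j B) := by exact_mod_cast hcard
    -- the bound of the energy term
    have hen : (B.card : ℝ) ^ (r % 2) * EA j B ≤ D * (n : ℝ) ^ ((r : ℝ) - 1 - g j) := by
      have hEn : (0 : ℝ) ≤ EA j B := Nat.cast_nonneg _
      rcases Nat.mod_two_eq_zero_or_one r with h0 | h1
      · have hr' : (r : ℝ) = 2 * j := by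
          have : r = 2 * j := by omega
          exact_mod_cast this
        rw [h0, pow_zero, one_mul, hr']
        exact hEj
      · have hr' : (r : ℝ) = 2 * j + 1 := by
          have : r = 2 * j + 1 := by omega
          exact_mod_cast this
        rw [h1, pow_one]
        calc (B.card : ℝ) * EA j B ≤ n * (D * (n : ℝ) ^ (2 * (j : ℝ) - 1 - g j)) :=
              mul_le_mul hBnR hEj hEn hnpos.le
          _ = D * (n * (n : ℝ) ^ (2 * (j : ℝ) - 1 - g j)) := by ring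
          _ = D * (n : ℝ) ^ ((r : ℝ) - 1 - g j) := by
              congr 1
              have : (n : ℝ) * (n : ℝ) ^ (2 * (j : ℝ) - 1 - g j) =
                  (n : ℝ) ^ (1 + (2 * (j : ℝ) - 1 - g j)) := by
                rw [Real.rpow_add hnpos, Real.rpow_one]
              rw [this, hr']
              congr 1
              ring
    have hKr : (2 * (k : ℝ)) ^ r ≤ K := by
      rw [hK]
      exact pow_le_pow_right₀ (by linarith) hr2
    have hcnt : ((F.filter (fun T => T.card = r)).card : ℝ) ≤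
        K * (D * (n : ℝ) ^ ((r : ℝ) - 1 - g j)) := by
      refine hcardR.trans ?_
      apply mul_le_mul hKr hen (by positivity) hKpos.le
    -- the power of M
    have hMpow : ((M : ℝ) ^ (r - 1))⁻¹ ≤ Y⁻¹ * (n : ℝ) ^ (-((1 - θ) * ((r : ℝ) - 1))) := by
      have h1 : Y * P ^ (r - 1) ≤ (M : ℝ) ^ (r - 1) := by
        calc Y * P ^ (r - 1) ≤ Y ^ (r - 1) * P ^ (r - 1) := by
              apply mul_le_mul_of_nonneg_right _ (by positivity)
              calc Y = Y ^ 1 := (pow_one _).symm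
                _ ≤ Y ^ (r - 1) := pow_le_pow_right₀ hY1 (by omega)
          _ = (Y * P) ^ (r - 1) := (mul_pow _ _ _).symm
          _ ≤ (M : ℝ) ^ (r - 1) := pow_le_pow_left₀ (by positivity) hMlo _
      have h2 : ((M : ℝ) ^ (r - 1))⁻¹ ≤ (Y * P ^ (r - 1))⁻¹ :=
        inv_anti₀ (by positivity) h1
      refine h2.trans (le_of_eq ?_)
      rw [mul_inv]
      congr 1
      rw [hP, ← Real.rpow_natCast, ← Real.rpow_mul hnpos.le, ← Real.rpow_neg hnpos.le]
      congr 2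
      rw [Nat.cast_sub (by omega), Nat.cast_one]
    calc ((F.filter (fun T => T.card = r)).card : ℝ) * ((M : ℝ) ^ (r - 1))⁻¹
        ≤ (K * (D * (n : ℝ) ^ ((r : ℝ) - 1 - g j))) *
          (Y⁻¹ * (n : ℝ) ^ (-((1 - θ) * ((r : ℝ) - 1)))) := by
          apply mul_le_mul hcnt hMpow (by positivity) (by positivity)
      _ = K * D * Y⁻¹ * ((n : ℝ) ^ ((r : ℝ) - 1 - g j) *
          (n : ℝ) ^ (-((1 - θ) * ((r : ℝ) - 1)))) := by ring
      _ = K * D * Y⁻¹ * (n : ℝ) ^ (((r : ℝ) - 1) * θ - g j) := by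
          rw [← Real.rpow_add hnpos]
          congr 2
          ring
      _ ≤ K * D * Y⁻¹ * n := by
          apply mul_le_mul_of_nonneg_left _ (by positivity)
          calc (n : ℝ) ^ (((r : ℝ) - 1) * θ - g j) ≤ (n : ℝ) ^ (1 : ℝ) :=
                Real.rpow_le_rpow_of_exponent_le hn1 (by linarith)
            _ = n := Real.rpow_one _
  -- the whole sum
  have htotal : 2 * ∑ T ∈ F, ((M : ℝ) ^ (T.card - 1))⁻¹ ≤ B.card := by
    have hfib : ∑ T ∈ F, ((M : ℝ) ^ (T.card - 1))⁻¹ =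
        ∑ r ∈ Icc 3 (2 * k), ∑ T ∈ F.filter (fun T => T.card = r),
          ((M : ℝ) ^ (T.card - 1))⁻¹ := by
      symm
      apply sum_fiberwise_of_maps_to
      intro T hT
      rw [memF] at hT
      rw [mem_Icc]
      exact ⟨hT.2.1, hT.2.2.1⟩
    rw [hfib]
    have h1 : ∑ r ∈ Icc 3 (2 * k), ∑ T ∈ F.filter (fun T => T.card = r),
          ((M : ℝ) ^ (T.card - 1))⁻¹ ≤ ∑ r ∈ Icc 3 (2 * k), K * D * Y⁻¹ * n :=
      sum_le_sum hsize
    rw [sum_const, nsmul_eq_mul, Nat.card_Icc] at h1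
    have h2 : ((2 * k + 1 - 3 : ℕ) : ℝ) ≤ 2 * k := by
      have : 2 * k + 1 - 3 ≤ 2 * k := by omega
      exact_mod_cast this
    have h3 : ((2 * k + 1 - 3 : ℕ) : ℝ) * (K * D * Y⁻¹ * n) ≤ 2 * k * (K * D * Y⁻¹ * n) :=
      mul_le_mul_of_nonneg_right h2 (by positivity)
    have h4' : 2 * (2 * k * (K * D * Y⁻¹ * n)) ≤ n / 2 := by
      have e : 2 * (2 * k * (K * D * Y⁻¹ * n)) = (8 * k * K * D) * Y⁻¹ * (n / 2) := by ring
      rw [e]
      have h5' : (8 * k * K * D) * Y⁻¹ ≤ 1 := by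
        rw [← div_eq_mul_inv, div_le_one hYpos]
        linarith
      have h6 : 0 ≤ (n : ℝ) / 2 := by positivity
      calc (8 * k * K * D) * Y⁻¹ * (n / 2) ≤ 1 * (n / 2) := mul_le_mul_of_nonneg_right h5' h6
        _ = n / 2 := one_mul _
    linarith
  obtain ⟨S, hSB, hSF, hScard⟩ := h4 B F M hM1 (by
    intro T hT
    rw [memF] at hT
    refine ⟨?_, hT.1⟩
    rw [← card_pos]
    omega) htotal
  refine ⟨S, hSB, ?_, ?_⟩
  · intro s t hs ht hsS htS hst
    by_contra hne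
    obtain ⟨T, hT3, hTk, hTmem, hTrel⟩ := h5 k s t hs ht hst hne
    have hTS : T ⊆ S := by
      intro a ha
      rcases hTmem a ha with h | h
      · exact hsS a h
      · exact htS a h
    exact hSF T ((memF T).2 ⟨hTS.trans hSB, hT3, hTk, hTrel⟩) hTS
  · have hn : (n : ℝ) = (n : ℝ) ^ θ * P := by
      rw [hP, ← Real.rpow_add hnpos]
      have : θ + (1 - θ) = 1 := by ring
      rw [this, Real.rpow_one]
    have hScard' : (n : ℝ) ≤ 8 * Y * P * S.card := by
      have hS0 : (0 : ℝ) ≤ S.card := Nat.cast_nonneg _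
      have h1 : (M : ℝ) * S.card ≤ 2 * (Y * P) * S.card := mul_le_mul_of_nonneg_right hMhi hS0
      calc (n : ℝ) ≤ 2 * B.card := hnBR
        _ ≤ 2 * (2 * M * S.card) := by linarith
        _ = 4 * (M * S.card) := by ring
        _ ≤ 4 * (2 * (Y * P) * S.card) := by linarith
        _ = 8 * Y * P * S.card := by ring
    have h2 : (n : ℝ) ^ θ * P ≤ (8 * Y * S.card) * P := by
      rw [← hn]
      calc (n : ℝ) ≤ 8 * Y * P * S.card := hScard'
        _ = (8 * Y * S.card) * P := by ring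
    have h3 : (n : ℝ) ^ θ ≤ 8 * Y * S.card := le_of_mul_le_mul_right h2 hPpos
    rw [one_div, inv_mul_le_iff₀ (by positivity)]
    exact h3

end Pool.Agent.H64.SD
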