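import Mathlib

/-!
# Project SD (helper64): large additive or multiplicative `B_k` subsets, and different sets

Definitions and the statements of the tasks.
-/

set_option autoImplicit false

namespace Pool.Agent.H64.SD

open Finset
open scoped Pointwise BigOperators

/-- `S` is an additive `B_k` set: two multisets of `k` elements of `S` with equal sums agree. -/
def BkA (k : ℕ) (S : Finset ℤ) : Prop :=
  ∀ s t : Multiset ℤ, s.card = k → t.card = k → (∀ a ∈ s, a ∈ S) → (∀ a ∈ t, a ∈ S) →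
    s.sum = t.sum → s = t

/-- `S` is a multiplicative `B_k` set: two multisets of `k` elements of `S` with equal products
agree. -/
def BkM (k : ℕ) (S : Finset ℤ) : Prop :=
  ∀ s t : Multiset ℤ, s.card = k → t.card = k → (∀ a ∈ s, a ∈ S) → (∀ a ∈ t, a ∈ S) →
    s.prod = t.prod → s = t

/-- The `k`-fold additive energy. -/
def EA {G : Type} [AddCommGroup G] [DecidableEq G] (k : ℕ) (B : Finset G) : ℕ :=
  (((Fintype.piFinset fun _ : Fin k => B) ×ˢ (Fintype.piFinset fun _ : Fin k => B)).filter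
    fun p => ∑ i, p.1 i = ∑ i, p.2 i).card

/-- The `k`-fold multiplicative energy. -/
def EM (k : ℕ) (B : Finset ℤ) : ℕ :=
  (((Fintype.piFinset fun _ : Fin k => B) ×ˢ (Fintype.piFinset fun _ : Fin k => B)).filter
    fun p => ∏ i, p.1 i = ∏ i, p.2 i).card

/-- **SD1.** A linear equation in `2 j` variables from a set of residues modulo a prime `N`, with
coefficients not divisible by `N`, has at most as many solutions as the `j`-fold energy.

PROOF (finite Fourier analysis).  Let `e` be a primitive additive character of `ZMod N`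
(`ZMod.stdAddChar` or `ZMod.toCircle`), `F ξ = ∑ b ∈ B, e (b ξ)`.  By orthogonality
`N * #{x : ∑ c_i x_i = h} = ∑ ξ, e (-h ξ) ∏ i, F (c_i ξ)`, so
`N * # ≤ ∑ ξ, ∏ i, ‖F (c_i ξ)‖ ≤ ∑ ξ, (1 / (2 j)) ∑ i, ‖F (c_i ξ)‖ ^ (2 j)` (inequality of the
arithmetic and geometric means, `Real.inner_le_nnorm_mul_nnorm`-free: `Real.geom_mean_le_arith_mean`
or `inner_le..`), and `ξ ↦ c_i ξ` is a bijection of `ZMod N`, so this is `∑ ξ, ‖F ξ‖ ^ (2 j)`, which
is `N * EA j B` by orthogonality again (`‖F‖ ^ (2 j) = F ^ j * conj F ^ j`).  The case `j = 0` is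
separate: the left side is at most `1 = EA 0 B`. -/
def S_SD1 : Prop := ∀ (N : ℕ) [Fact N.Prime] (j : ℕ) (B : Finset (ZMod N)) (c : Fin (2 * j) → ZMod N)
  (h : ZMod N), (∀ i, c i ≠ 0) →
    ((Fintype.piFinset fun _ : Fin (2 * j) => B).filter fun x => ∑ i, c i * x i = h).card ≤ EA j B

/-- **SD2.** The same over the integers.

PROOF.  Take a prime `N` larger than `2 (|h| + ∑ |c_i| D + 2 j D) + 1`, where `D` bounds the
absolute values of the elements of `B`.  The cast `ℤ → ZMod N` is injective on `B`, a congruence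
`∑ c_i x_i ≡ h` of elements of `B` modulo `N` is an equality, and the same for
`∑ x_i ≡ ∑ y_i` (`i < j`), and `c_i` is not `0` modulo `N`.  Apply SD1 to the image of `B`. -/
def S_SD2 : Prop := S_SD1 → ∀ (j : ℕ) (B : Finset ℤ) (c : Fin (2 * j) → ℤ) (h : ℤ),
  (∀ i, c i ≠ 0) →
    ((Fintype.piFinset fun _ : Fin (2 * j) => B).filter fun x => ∑ i, c i * x i = h).card ≤ EA j B

/-- `T` carries a relation with small nonzero coefficients. -/
def Rel (k : ℕ) (T : Finset ℤ) : Prop :=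
  ∃ c : ℤ → ℤ, (∀ a ∈ T, c a ≠ 0 ∧ |c a| ≤ k) ∧ ∑ a ∈ T, c a * a = 0

/-- **SD3.** The number of the `r`-subsets with a relation.

PROOF.  Let `j = r / 2`.  For each `T` choose an enumeration `x : Fin r → ℤ` of `T`
(`T.equivFin` or `T.orderEmbOfFin`), and `c ∘ x : Fin r → ℤ` with values in
`(Icc (-k) k) \ {0}`, a set of `2 k` elements.  So the number is at most
`(2 k) ^ r * max_c #{x ∈ B ^ r : ∑ c_i x_i = 0}`.  If `r = 2 j` use SD2 with `h = 0`; if
`r = 2 j + 1` fix the last variable (`|B|` values) and use SD2 with `h = - c_last x_last`. -/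
def S_SD3 : Prop :=
  (∀ (j : ℕ) (B : Finset ℤ) (c : Fin (2 * j) → ℤ) (h : ℤ), (∀ i, c i ≠ 0) →
    ((Fintype.piFinset fun _ : Fin (2 * j) => B).filter fun x => ∑ i, c i * x i = h).card ≤
      EA j B) →
  ∀ (k r : ℕ) (B : Finset ℤ) (F : Finset (Finset ℤ)),
    (∀ T ∈ F, T ⊆ B ∧ T.card = r ∧ Rel k T) →
      F.card ≤ (2 * k) ^ r * (B.card ^ (r % 2) * EA (r / 2) B)

/-- **SD4.** Deletion.

PROOF.  Average over all colourings `χ : B → Fin M` (all functions, `M ^ |B|` of them).  For a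
colouring and a colour `i` let `n_i = #{b : χ b = i}` and `d_i = #{T ∈ F : χ = i on T}`.  Then
`∑ i, n_i = |B|` and the average of `∑ i, d_i` (number of the monochromatic `T`) is
`∑ T ∈ F, M * M ^ (-|T|) = ∑ T ∈ F, M ^ (1 - |T|) ≤ |B| / 2`.  So for some `χ`, `i` we have
`n_i - d_i ≥ |B| / (2 M)`.  Delete one element of each monochromatic `T` of colour `i` from the
colour class. -/
def S_SD4 : Prop := ∀ (B : Finset ℤ) (F : Finset (Finset ℤ)) (M : ℕ), 1 ≤ M →
  (∀ T ∈ F, T.Nonempty ∧ T ⊆ B) → 2 * ∑ T ∈ F, ((M : ℝ) ^ (T.card - 1))⁻¹ ≤ B.card →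
    ∃ S ⊆ B, (∀ T ∈ F, ¬ T ⊆ S) ∧ (B.card : ℝ) ≤ 2 * M * S.card

/-- **SD5.** A set which is not `B_k` contains a set with a relation.

PROOF.  Let `c a = count a s - count a t` (integers) and `T` the set of all `a` in `s` or `t` with
`c a ≠ 0`.  `|c a| ≤ k` since the counts are between `0` and `k`.  `∑ c a = k - k = 0` and
`∑ c a * a = s.sum - t.sum = 0`.  `T` is not empty as `s ≠ t`; it has not exactly one element
(`c a = 0`), nor two (`c a = - c b` and `c a (a - b) = 0`, `a ≠ b`).  It has at most `2 k` elements,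
each being in `s` or `t`. -/
def S_SD5 : Prop := ∀ (k : ℕ) (s t : Multiset ℤ), s.card = k → t.card = k → s.sum = t.sum →
  s ≠ t → ∃ T : Finset ℤ, 3 ≤ T.card ∧ T.card ≤ 2 * k ∧ (∀ a ∈ T, a ∈ s ∨ a ∈ t) ∧ Rel k T

/-- **SD6.** Finite sets of integers of one sign, with multiplication, look like finite sets of integers
with addition.

PROOF.  Let `R = k * D + 1` with `D` larger than `|c|` for all `c ∈ C` (so all exponents
`v_p c < D`, as `p ^ v ≤ |c|` gives `v < |c|`), and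
`φ c = ∑ p ∈ primes below D + 1, v_p(|c|) * R ^ p` (`Nat.factorization c.natAbs`).  For multisets
`s`, `t` of `k` elements of `C` the sum of `φ` over `s` is `∑ p, (∑_{c ∈ s} v_p c) R ^ p` with digits
`< R`, so it determines all `∑_{c ∈ s} v_p c`, i.e. the absolute value of the product
(`Nat.digits` uniqueness, or induction on the number of primes, or `Nat.ofDigits_inj_of_len_eq`);
conversely the absolute value of the product determines the sum of `φ`.  The sign of the product is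
`+` for both or `(-1) ^ k` for both.  Injectivity: same argument with one element (or
`s = {c, …, c}` if `k ≥ 1`). -/
def S_SD6 : Prop := ∀ (k : ℕ) (C : Finset ℤ), 1 ≤ k → ((∀ a ∈ C, 0 < a) ∨ (∀ a ∈ C, a < 0)) →
  ∃ φ : ℤ → ℤ, Set.InjOn φ C ∧ ∀ j ≤ k, ∀ s t : Multiset ℤ, s.card = j → t.card = j →
    (∀ a ∈ s, a ∈ C) → (∀ a ∈ t, a ∈ C) → (s.prod = t.prod ↔ (s.map φ).sum = (t.map φ).sum)

/-- **SD7.** Transfer of energies and of `B_k` subsets.

PROOF.  Let `C'` be the image of `C` under `φ` (SD6).  `EA j C' = EM j C`, by the bijection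
`x ↦ φ ∘ x` of the tuples (write a tuple as the multiset `Finset.univ.val.map x`,
`Multiset.sum (Finset.univ.val.map x) = ∑ i, x i`).  If `S' ⊆ C'` is additive `B_k`, the set `S` of all
`a ∈ C` with `φ a ∈ S'` is multiplicative `B_k` (`Multiset.map` is injective on multisets with elements in
`C`: use a left inverse of `φ` on `C`, `Function.invFunOn`) and `|S| = |S'|`. -/
def S_SD7 : Prop := S_SD6 → ∀ (k : ℕ) (C : Finset ℤ), 1 ≤ k →
  ((∀ a ∈ C, 0 < a) ∨ (∀ a ∈ C, a < 0)) →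
    ∃ C' : Finset ℤ, C'.card = C.card ∧ (∀ j ≤ k, EA j C' = EM j C) ∧
      ∀ S' ⊆ C', BkA k S' → ∃ S ⊆ C, S.card = S'.card ∧ BkM k S

/-- **SD8.** The additive theorem (assembly of SD3, SD4, SD5).

PROOF.  Put `θ = (1 + γ log k) / (2 k - 1)`, so `0 < θ ≤ 1`.  Let `F` be the set of all `T ⊆ B` with
`3 ≤ |T| ≤ 2 k` and `Rel k T` (a filter of the powerset, classical).  By (c) below the number of
`T ∈ F` with `|T| = r` is at most `(2 k) ^ r * (|B| ^ (r % 2) * EA (r / 2) B)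
≤ (2 k) ^ (2 k) * D * n ^ (r - 1 - γ log (r / 2))` with `r / 2` the integer part, `n` as below
(both parities: `n * n ^ (2 j - 1 - γ log j) = n ^ (r - 1 - γ log j)` if `r = 2 j + 1`).
Let `Y = 4 * k * (2 k) ^ (2 k) * D + 1` (`≥ 1`) and `M = ⌈Y * n ^ (1 - θ)⌉₊`, so `M ≥ 1`,
`M ≤ 2 Y n ^ (1 - θ)` (since `Y n ^ (1 - θ) ≥ 1`), and for `3 ≤ r ≤ 2 k`, as `Y ≥ 1`,
`(M ^ (r - 1))⁻¹ ≤ Y⁻¹ n ^ (- (1 - θ) (r - 1))`.  So
`∑_{|T| = r} (M ^ (r - 1))⁻¹ ≤ (2 k) ^ (2 k) D Y⁻¹ n ^ ((r - 1) θ - γ log (r / 2))`, and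
`(r - 1) θ ≤ 1 + γ log (r / 2)` — this is
`(r - 1) (1 + γ log k) ≤ (2 k - 1) (1 + γ log (r / 2))`: if `r = 2 k` equality; if `r ≤ 2 k - 1` and
`j = r / 2 ≥ 1` is the integer part, `j ≤ k - 1`, `r - 1 ≤ 2 j`, and with `log (k / j) ≤ (k - j) / j`,
`2 j (1 + γ log k) ≤ 2 j (1 + γ log j) + 2 j γ (k - j) / j ≤ 2 j (1 + γ log j) + (k - j)`
(`γ ≤ 1 / 2`) `≤ 2 j (1 + γ log j) + (2 k - 1 - 2 j) (1 + γ log j)` since `2 k - 1 - 2 j ≥ k - j`.
So each `r` contributes at most `n (2 k) ^ (2 k) D / Y ≤ n / (4 k)`, fewer than `k * 2` values of `r`,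
hence twice the sum is at most `... ≤ |B|` if the constant `4 k` in `Y` is replaced by `8 k` (take
`Y = 8 * k * (2 k) ^ (2 k) * D + 1` : `2 * (2 k) * n / (8 k) = n / 2 ≤ |B|`).
Deletion (b) gives `S ⊆ B` with `|B| ≤ 2 M |S|` that contains no `T ∈ F`, so `S` is `B_k` by (d), and
`|S| ≥ |B| / (2 M) ≥ (n / 2) / (4 Y n ^ (1 - θ)) = n ^ θ / (8 Y)`. -/
def S_SD8 : Prop :=
  (∀ (k r : ℕ) (B : Finset ℤ) (F : Finset (Finset ℤ)),
    (∀ T ∈ F, T ⊆ B ∧ T.card = r ∧ Rel k T) →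
      F.card ≤ (2 * k) ^ r * (B.card ^ (r % 2) * EA (r / 2) B)) →
  S_SD4 → S_SD5 →
  ∀ (k : ℕ) (γ D : ℝ), 2 ≤ k → 0 < γ → γ ≤ 1 / 2 → 0 < D → ∃ c : ℝ, 0 < c ∧
    ∀ (n : ℕ) (B : Finset ℤ), 1 ≤ n → B.card ≤ n → n ≤ 2 * B.card →
      (∀ j : ℕ, 1 ≤ j → j ≤ k →
        (EA j B : ℝ) ≤ D * (n : ℝ) ^ (2 * (j : ℝ) - 1 - γ * Real.log j)) →
      ∃ S ⊆ B, BkA k S ∧ c * (n : ℝ) ^ ((1 + γ * Real.log k) / (2 * (k : ℝ) - 1)) ≤ S.card

end Pool.Agent.H64.SD
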