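import Mathlib
import Pool.Agent.H64.ES.Better
import Pool.Agent.H64.SD.Final
import Pool.Agent.H64.SD.Gen

/-!
# Large additive or multiplicative `B_k` subsets: the trade-off
-/

set_option autoImplicit false

namespace Pool.Agent.H64.SD.Trade

open Finset Real
open Pool.Agent.H87.LL (Fac)
open Pool.Agent.Y359.LE (En En_le)
open Pool.Agent.H87.PT (decG tau)

theorem phi_mono (u v : ℝ) (hu : 0 < u) (huv : u ≤ v) (hv : v ≤ 1) :
    u * (1 - log u) ≤ v * (1 - log v) := by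
  have hv0 : 0 < v := lt_of_lt_of_le hu huv
  have h1 : log (v / u) ≤ v / u - 1 := Real.log_le_sub_one_of_pos (by positivity)
  rw [Real.log_div hv0.ne' hu.ne'] at h1
  have h2 := mul_le_mul_of_nonneg_left h1 hu.le
  have h3 : u * (v / u - 1) = v - u := by field_simp
  rw [h3] at h2
  have h4 : log v ≤ 0 := Real.log_nonpos hv0.le hv
  have h5 : 0 ≤ (v - u) * (-log v) := mul_nonneg (by linarith) (by linarith)
  nlinarith

theorem tau_eq_phi (k t : ℝ) (hk : 0 < k) (ht : 0 < t) :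
    tau k t = t / (16 * k) * (1 - log (t / (16 * k))) := by
  unfold tau
  have h : 16 * k / t = (t / (16 * k))⁻¹ := by rw [inv_div]
  rw [h, Real.log_inv]
  ring

theorem tau_mono (j k : ℕ) (t : ℝ) (hj : 1 ≤ j) (hjk : j ≤ k) (ht : 1 ≤ t) (htk : t ≤ 16 * k) :
    tau k t ≤ tau j (min t (16 * j)) := by
  have hj1 : (1 : ℝ) ≤ j := by exact_mod_cast hj
  have hjk1 : (j : ℝ) ≤ k := by exact_mod_cast hjk
  have hm : (0 : ℝ) < min t (16 * j) := lt_min (by linarith) (by linarith)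
  rw [tau_eq_phi k t (by linarith) (by linarith), tau_eq_phi j _ (by linarith) hm]
  have h16j : (0 : ℝ) < 16 * j := by linarith
  have h16k : (0 : ℝ) < 16 * k := by linarith
  refine phi_mono _ _ (div_pos (by linarith) h16k) ?_ ?_
  · rw [div_le_div_iff₀ h16k h16j]
    rcases le_total t (16 * j) with h | h
    · rw [min_eq_left h]
      exact mul_le_mul_of_nonneg_left (by linarith) (by linarith)
    · rw [min_eq_right h]
      nlinarith
  · rw [div_le_one h16j]
    exact min_le_right _ _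

theorem tau_le_one (j : ℕ) (t : ℝ) (hj : 1 ≤ j) (ht : 1 ≤ t) (htj : t ≤ 16 * j) :
    tau j t ≤ 1 := by
  have hj1 : (1 : ℝ) ≤ j := by exact_mod_cast hj
  have h16j : (0 : ℝ) < 16 * j := by linarith
  rw [tau_eq_phi j t (by linarith) (by linarith)]
  have := phi_mono (t / (16 * j)) 1 (by positivity) (by rw [div_le_one h16j]; exact htj) le_rfl
  rw [Real.log_one] at this
  linarith

theorem ktau_ge (j : ℕ) (t : ℝ) (hj : 1 ≤ j) (ht : 1 ≤ t) (htj : t ≤ 16 * j) :
    (1 : ℝ) / 16 ≤ j * tau j t := by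
  have hj1 : (1 : ℝ) ≤ j := by exact_mod_cast hj
  have ht0 : 0 < t := by linarith
  have h1 : (j : ℝ) * tau j t = t / 16 * (1 + log (16 * j / t)) := by
    unfold tau
    field_simp
  have h2 : 0 ≤ log (16 * j / t) := Real.log_nonneg (by rw [le_div_iff₀ ht0]; linarith)
  rw [h1]
  nlinarith

/-- The decomposition with the trade-off. -/
theorem decomp (k : ℕ) (d t : ℝ) (hd : 0 < d) (ht : 1 ≤ t) :
    ∃ C : ℝ, 0 < C ∧ ∀ A : Finset ℤ, (0 : ℤ) ∉ A → A.Nonempty →
      ∃ B ⊆ A, ∀ j : ℕ, 1 ≤ j → j ≤ k →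
      (En B j : ℝ) ≤
        (A.card : ℝ) ^ (2 * (j : ℝ) - 1 - d / (10 ^ 5 * (3 + log t)) * Real.log j) ∧
      ((Pool.Agent.H64.ES.EM (fun _ : Fin j => A \ B)).card : ℝ) ≤
        C * (A.card : ℝ) ^ (2 * (j : ℝ) - 1 -
          ((1 - d) * (j * tau j (min t (16 * j))) - 1)) := by
  classical
  have hlt : 0 ≤ log t := Real.log_nonneg ht
  have h3 : 0 < 3 + log t := by linarith
  obtain ⟨δ, hδd⟩ : ∃ δ : ℝ, δ = d / (80000 * (3 + log t)) := ⟨_, rfl⟩
  have hδ : 0 < δ := by rw [hδd]; positivity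
  obtain ⟨W, hW0, hdec⟩ := decG (Nat.log 2 k) δ hδ
  obtain ⟨ε, hε⟩ : ∃ ε : ℝ, ε = min (d / 50) 1 := ⟨_, rfl⟩
  have hε0 : 0 < ε := by rw [hε]; exact lt_min (by positivity) one_pos
  have hε1 : ε ≤ 1 := by rw [hε]; exact min_le_right _ _
  have hε2 : ε ≤ d / 50 := by rw [hε]; exact min_le_left _ _
  obtain ⟨C, hCd⟩ : ∃ C : ℝ, C = 1 + ∑ j ∈ Finset.range (k + 1), W j ε (min t (16 * j)) :=
    ⟨_, rfl⟩
  have hsum0 : ∀ j ∈ Finset.range (k + 1), 0 ≤ W j ε (min t (16 * j)) := fun j _ => (hW0 j _ _).le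
  have hC1 : 1 ≤ C := by
    rw [hCd]
    have := Finset.sum_nonneg hsum0
    linarith
  have hCk : ∀ j ≤ k, W j ε (min t (16 * j)) ≤ C := by
    intro j hj
    have h1 := Finset.single_le_sum hsum0 (Finset.mem_range.2 (Nat.lt_succ_of_le hj))
    rw [hCd]
    linarith
  refine ⟨C, by linarith, ?_⟩
  intro A hA0 hA
  obtain ⟨B, hBA, hEn, hF⟩ := hdec A
  refine ⟨B, hBA, ?_⟩
  intro j hj hjk
  have hj1 : (1 : ℝ) ≤ j := by exact_mod_cast hj
  have hl0 : 0 ≤ log (j : ℝ) := Real.log_nonneg hj1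
  have cA : (1 : ℝ) ≤ A.card := by exact_mod_cast hA.card_pos
  have cA0 : (0 : ℝ) < A.card := by linarith
  have hSA : ((A \ B).card : ℝ) ≤ A.card := by
    exact_mod_cast Finset.card_le_card Finset.sdiff_subset
  constructor
  · have h1 := hEn (Nat.log 2 j) (Nat.log_mono_right hjk) j (Nat.pow_log_le_self 2 (by omega))
    refine h1.trans (Real.rpow_le_rpow_of_exponent_le cA ?_)
    have h2 := Pool.Agent.H64.ES.Better.natlog_delta j hj
    have h4 : d / (10 ^ 5 * (3 + log t)) * Real.log j = δ * (0.8 * Real.log j) := by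
      rw [hδd]
      field_simp
      ring
    have h5 : 0.8 * Real.log j ≤ (Nat.log 2 j : ℝ) := by
      rw [div_le_iff₀ (by norm_num)] at h2
      linarith
    have h6 := mul_le_mul_of_nonneg_left h5 hδ.le
    rw [h4]
    linarith
  · have h0' : (0 : ℤ) ∉ A \ B := fun h => hA0 (Finset.mem_sdiff.1 h).1
    obtain ⟨s, hs⟩ : ∃ s : ℝ, s = min t (16 * (j : ℝ)) := ⟨_, rfl⟩
    have hs1 : 1 ≤ s := by rw [hs]; exact le_min ht (by linarith)
    have hsj : s ≤ 16 * j := by rw [hs]; exact min_le_right _ _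
    have hst : s ≤ t := by rw [hs]; exact min_le_left _ _
    have hWC := hCk j hjk
    rw [← hs] at hWC ⊢
    have h1 := Pool.Agent.H64.ES.EM_le_fac j (A \ B) h0' _ (fun u hu => hF j hj ε hε0 hε1 s hs1
      hsj u hu)
    refine h1.trans ?_
    have h2 : ((A \ B).card : ℝ) ^ j ≤ (A.card : ℝ) ^ (j : ℝ) := by
      rw [Real.rpow_natCast]
      exact pow_le_pow_left₀ (Nat.cast_nonneg _) hSA j
    have hW := hW0 j ε s
    have hτ := ktau_ge j s hj hs1 hsj
    have hlog : log s ≤ log t := Real.log_le_log (by linarith) hst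
    have hx : (j : ℝ) - j * tau j s + ε + 50000 * (3 + Real.log s) * δ * (j * tau j s) ≤
        j - (1 - d) * (j * tau j s) := by
      have e1 : 50000 * (3 + Real.log s) * δ ≤ 5 / 8 * d := by
        have e2 : 50000 * (3 + Real.log t) * δ = 5 / 8 * d := by
          rw [hδd]
          field_simp
          ring
        rw [← e2]
        exact mul_le_mul_of_nonneg_right (by linarith) hδ.le
      have e3 := mul_le_mul_of_nonneg_right e1 (show 0 ≤ (j : ℝ) * tau j s by linarith)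
      have e4 : d * (1 / 16) ≤ d * (j * tau j s) := mul_le_mul_of_nonneg_left hτ hd.le
      linarith
    obtain ⟨X, hX⟩ : ∃ X : ℝ, X = (j : ℝ) - j * tau j s + ε +
      50000 * (3 + Real.log s) * δ * (j * tau j s) := ⟨_, rfl⟩
    rw [← hX] at hx ⊢
    calc ((A \ B).card : ℝ) ^ j * (W j ε s * (A.card : ℝ) ^ X) ≤
        (A.card : ℝ) ^ (j : ℝ) * (W j ε s * (A.card : ℝ) ^ X) :=
          mul_le_mul_of_nonneg_right h2 (by positivity)
      _ = W j ε s * (A.card : ℝ) ^ ((j : ℝ) + X) := by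
          rw [Real.rpow_add cA0 (j : ℝ)]
          ring
      _ ≤ C * (A.card : ℝ) ^ (2 * (j : ℝ) - 1 - ((1 - d) * (j * tau j s) - 1)) := by
          refine mul_le_mul hWC ?_ (by positivity) (by linarith)
          exact Real.rpow_le_rpow_of_exponent_le cA (by linarith)

/-- **The trade-off for `B_k` subsets.** -/
theorem bk_trade (k : ℕ) (hk : 1 ≤ k) (d : ℝ) (hd : 0 < d) (hd1 : d ≤ 1) (t : ℝ) (ht : 1 ≤ t)
    (htk : t ≤ 16 * k) : ∃ c : ℝ, 0 < c ∧ ∀ A : Finset ℤ, (0 : ℤ) ∉ A → ∃ S ⊆ A,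
      (BkA k S ∧ c * (A.card : ℝ) ^
        ((1 + d * Real.log k / (10 ^ 5 * (3 + Real.log t))) / (2 * (k : ℝ) - 1)) ≤ S.card) ∨
      (BkM k S ∧ c * (A.card : ℝ) ^
        ((1 - d) * (t / (32 * k)) * (1 + Real.log (16 * k / t))) ≤ S.card) := by
  rcases Nat.eq_or_lt_of_le hk with h1 | hk2
  · subst h1
    refine ⟨1, one_pos, fun A _ => ⟨A, subset_rfl, Or.inl ⟨?_, ?_⟩⟩⟩
    · intro s t hs ht _ _ hst
      rw [Multiset.card_eq_one] at hs ht
      obtain ⟨a, rfl⟩ := hs
      obtain ⟨b, rfl⟩ := ht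
      simpa using hst
    · norm_num
  have hkR : (2 : ℝ) ≤ k := by exact_mod_cast hk2
  have hlt : 0 ≤ log t := Real.log_nonneg ht
  have h3t : 0 < 3 + log t := by linarith
  have h2 := SD2_holds SD1_holds
  have h3 := SD3_holds h2
  obtain ⟨γ, hγ⟩ : ∃ γ : ℝ, γ = d / (10 ^ 5 * (3 + log t)) := ⟨_, rfl⟩
  have hγ0 : 0 < γ := by rw [hγ]; positivity
  have hγ1 : γ ≤ 1 / 2 := by
    rw [hγ, div_le_iff₀ (by positivity)]
    nlinarith
  have hγl : d * Real.log k / (10 ^ 5 * (3 + Real.log t)) = γ * Real.log k := by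
    rw [hγ]
    ring
  obtain ⟨C, hC, hdec⟩ := decomp k d t hd ht
  obtain ⟨c1, hc1, hadd⟩ := SD8_holds h3 SD4_holds SD5_holds k γ 1 hk2 hγ0 hγ1 one_pos
  obtain ⟨θ, hθ⟩ : ∃ θ : ℝ, θ = (1 - d) * tau k t / 2 := ⟨_, rfl⟩
  have hθe : (1 - d) * (t / (32 * k)) * (1 + Real.log (16 * k / t)) = θ := by
    rw [hθ]
    unfold tau
    field_simp
    ring
  have hτ0 : 0 ≤ tau k t := by
    have := ktau_ge k t hk ht htk
    have hk0 : (0 : ℝ) < k := by linarith
    by_contra hcon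
    push Not at hcon
    nlinarith
  have hθ0 : 0 ≤ θ := by
    rw [hθ]
    have : 0 ≤ (1 - d) * tau k t := mul_nonneg (by linarith) hτ0
    linarith
  have hθ1 : θ ≤ 1 := by
    rw [hθ]
    have := tau_le_one k t hk ht htk
    nlinarith
  obtain ⟨c2, hc2, hmul⟩ := general h3 SD4_holds SD5_holds k θ (C * 4 ^ (2 * k))
    (fun j => (1 - d) * (j * tau j (min t (16 * j))) - 1) hk2 hθ1 (by positivity) (by
      intro r hr3 hr2
      obtain ⟨j, hj⟩ : ∃ j, j = r / 2 := ⟨_, rfl⟩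
      rw [← hj]
      have hj1 : 1 ≤ j := by omega
      have hjk : j ≤ k := by omega
      have hrj : r ≤ 2 * j + 1 := by omega
      have hrjR : (r : ℝ) ≤ 2 * j + 1 := by exact_mod_cast hrj
      have hj0 : (0 : ℝ) ≤ j := Nat.cast_nonneg _
      have e1 := tau_mono j k t hj1 hjk ht htk
      have e2 : ((r : ℝ) - 1) * θ ≤ 2 * j * θ := mul_le_mul_of_nonneg_right (by linarith) hθ0
      have e3 : 2 * (j : ℝ) * θ = (1 - d) * (j * tau k t) := by rw [hθ]; ring
      have e4 : (1 - d) * ((j : ℝ) * tau k t) ≤ (1 - d) * (j * tau j (min t (16 * j))) :=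
        mul_le_mul_of_nonneg_left (mul_le_mul_of_nonneg_left e1 hj0) (by linarith)
      linarith)
  refine ⟨min c1 (c2 / 4 ^ θ), lt_min hc1 (by positivity), fun A h0 => ?_⟩
  rw [hγl, hθe]
  rcases Finset.eq_empty_or_nonempty A with hAe | hAne
  · subst hAe
    refine ⟨∅, subset_rfl, Or.inl ⟨?_, ?_⟩⟩
    · intro s t hs ht h _ _
      exfalso
      have : s = 0 := Multiset.eq_zero_of_forall_notMem fun a ha => by simpa using h a ha
      rw [this] at hs
      simp at hs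
      omega
    · have hlk : 0 ≤ Real.log k := Real.log_nonneg (by linarith)
      have hθp : (1 + γ * Real.log k) / (2 * (k : ℝ) - 1) ≠ 0 := by
        have : 0 ≤ γ * Real.log k := mul_nonneg hγ0.le hlk
        exact (div_pos (by linarith) (by linarith)).ne'
      simp [Real.zero_rpow hθp]
  obtain ⟨B, hBA, hB⟩ := hdec A h0 hAne
  have hcard : A.card = B.card + (A \ B).card := by
    rw [Finset.card_sdiff_of_subset hBA]
    have := Finset.card_le_card hBA
    omega
  have hA1 : 1 ≤ A.card := hAne.card_pos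
  by_cases hbig : A.card ≤ 2 * B.card
  · -- the additive case
    obtain ⟨S, hS, hS2, hS3⟩ := hadd A.card B hA1 (Finset.card_le_card hBA) hbig fun j hj1 hj2 => by
      have := (hB j hj1 hj2).1
      rw [← hγ] at this
      rw [one_mul]
      exact this
    refine ⟨S, hS.trans hBA, Or.inl ⟨hS2, ?_⟩⟩
    exact (mul_le_mul_of_nonneg_right (min_le_left _ _)
      (Real.rpow_nonneg (Nat.cast_nonneg _) _)).trans hS3
  · -- the multiplicative case
    obtain ⟨D, hD, hD1, hD2⟩ : ∃ D ⊆ A \ B, ((∀ a ∈ D, 0 < a) ∨ (∀ a ∈ D, a < 0)) ∧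
        A.card ≤ 4 * D.card := by
      have hsplit := Finset.card_filter_add_card_filter_not (s := A \ B) (fun a : ℤ => 0 < a)
      by_cases hh : (A \ B).card ≤ 2 * ((A \ B).filter fun a => 0 < a).card
      · refine ⟨(A \ B).filter fun a => 0 < a, Finset.filter_subset _ _, Or.inl fun a ha =>
          (Finset.mem_filter.1 ha).2, by omega⟩
      · refine ⟨(A \ B).filter fun a => ¬ 0 < a, Finset.filter_subset _ _, Or.inr fun a ha => ?_,
          by omega⟩
        have h5 := Finset.mem_filter.1 ha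
        have h6 : a ≠ 0 := fun h => h0 (h ▸ (Finset.mem_sdiff.1 h5.1).1)
        have h7 := h5.2
        omega
    have hDne : 1 ≤ D.card := by omega
    obtain ⟨D', hD'c, hD'E, hD'S⟩ := SD7_holds SD6_holds k D hk hD1
    have hDR : (A.card : ℝ) ≤ 4 * D.card := by exact_mod_cast hD2
    have hDp : (0 : ℝ) < D.card := by exact_mod_cast hDne
    obtain ⟨S', hS', hS2, hS3⟩ := hmul D.card D' hDne (le_of_eq hD'c) (by rw [hD'c]; omega)
      fun j hj1 hj2 => by
        rw [hD'E j hj2]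
        obtain ⟨y, hy⟩ : ∃ y : ℝ, y = (1 - d) * ((j : ℝ) * tau j (min t (16 * j))) - 1 := ⟨_, rfl⟩
        have e1 : (EM j D : ℝ) ≤ EM j (A \ B) := by exact_mod_cast EM_mono j D _ hD
        have e2 : (EM j (A \ B) : ℝ) ≤ C * (A.card : ℝ) ^ (2 * (j : ℝ) - 1 - y) := by
          have := (hB j hj1 hj2).2
          rw [← hy] at this
          exact this
        have hj1R : (1 : ℝ) ≤ j := by exact_mod_cast hj1
        have hj2R : (j : ℝ) ≤ k := by exact_mod_cast hj2
        have hm1 : (1 : ℝ) ≤ min t (16 * j) := le_min ht (by linarith)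
        have hτ1 := tau_le_one j (min t (16 * j)) hj1 hm1 (min_le_right _ _)
        have hτ2 := ktau_ge j (min t (16 * j)) hj1 hm1 (min_le_right _ _)
        have e3 : 0 ≤ 2 * (j : ℝ) - 1 - y := by
          have t1 : (j : ℝ) * tau j (min t (16 * j)) ≤ j * 1 :=
            mul_le_mul_of_nonneg_left hτ1 (by linarith)
          have t2 : (1 - d) * ((j : ℝ) * tau j (min t (16 * j))) ≤
              1 * ((j : ℝ) * tau j (min t (16 * j))) :=
            mul_le_mul_of_nonneg_right (by linarith) (by linarith)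
          rw [hy]
          linarith
        have e4 : (A.card : ℝ) ^ (2 * (j : ℝ) - 1 - y) ≤
            (4 * (D.card : ℝ)) ^ (2 * (j : ℝ) - 1 - y) :=
          Real.rpow_le_rpow (Nat.cast_nonneg _) hDR e3
        rw [Real.mul_rpow (by norm_num) hDp.le] at e4
        have e5 : (4 : ℝ) ^ (2 * (j : ℝ) - 1 - y) ≤ 4 ^ (2 * k) := by
          rw [← Real.rpow_natCast]
          refine Real.rpow_le_rpow_of_exponent_le (by norm_num) ?_
          have t2 : 0 ≤ (1 - d) * ((j : ℝ) * tau j (min t (16 * j))) :=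
            mul_nonneg (by linarith) (by linarith)
          rw [hy]
          push_cast
          linarith
        have e6 : (4 : ℝ) ^ (2 * (j : ℝ) - 1 - y) * (D.card : ℝ) ^ (2 * (j : ℝ) - 1 - y) ≤
            4 ^ (2 * k) * (D.card : ℝ) ^ (2 * (j : ℝ) - 1 - y) :=
          mul_le_mul_of_nonneg_right e5 (Real.rpow_nonneg (Nat.cast_nonneg _) _)
        show (EM j D : ℝ) ≤ C * 4 ^ (2 * k) * (D.card : ℝ) ^ (2 * (j : ℝ) - 1 -
          ((1 - d) * ((j : ℝ) * tau j (min t (16 * j))) - 1))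
        rw [← hy]
        calc (EM j D : ℝ) ≤ C * (A.card : ℝ) ^ (2 * (j : ℝ) - 1 - y) := e1.trans e2
          _ ≤ C * (4 ^ (2 * k) * (D.card : ℝ) ^ (2 * (j : ℝ) - 1 - y)) :=
              mul_le_mul_of_nonneg_left (e4.trans e6) hC.le
          _ = _ := by ring
    obtain ⟨S, hSD, hSc, hSM⟩ := hD'S S' hS' hS2
    refine ⟨S, (hSD.trans hD).trans Finset.sdiff_subset, Or.inr ⟨hSM, ?_⟩⟩
    rw [hSc]
    refine le_trans ?_ hS3
    have e1 : (A.card : ℝ) ^ θ ≤ 4 ^ θ * (D.card : ℝ) ^ θ := by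
      rw [← Real.mul_rpow (by norm_num) hDp.le]
      exact Real.rpow_le_rpow (Nat.cast_nonneg _) hDR hθ0
    have h4 : (0 : ℝ) < 4 ^ θ := Real.rpow_pos_of_pos (by norm_num) _
    calc min c1 (c2 / 4 ^ θ) * (A.card : ℝ) ^ θ ≤ c2 / 4 ^ θ * (A.card : ℝ) ^ θ :=
          mul_le_mul_of_nonneg_right (min_le_right _ _) (Real.rpow_nonneg (Nat.cast_nonneg _) _)
      _ ≤ c2 / 4 ^ θ * (4 ^ θ * (D.card : ℝ) ^ θ) :=
          mul_le_mul_of_nonneg_left e1 (div_pos hc2 h4).le
      _ = c2 * (D.card : ℝ) ^ θ := by rw [← mul_assoc, div_mul_cancel₀ _ h4.ne']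

end Pool.Agent.H64.SD.Trade
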